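import Pool.Agent.Q282.DT.Stm

/-!
# The bound `L` counts monomials (DT-COMB)
-/

set_option autoImplicit false

namespace Q282DT

/-- the closed form -/
def KK : List ℕ → ℕ → ℕ
  | [], _ => 0
  | (b :: t), d => ∑ e ∈ Finset.range (d + 1), KK t e + (min (d + 1) (t.sum + b) - t.sum)

theorem KK_zero : ∀ l : List ℕ, KK l 0 = if l.sum = 0 then 0 else 1
  | [] => rfl
  | (b :: t) => by
    rw [KK, zero_add, Finset.sum_range_one, KK_zero t, List.sum_cons]
    split_ifs <;> omega

theorem KK_eq : ∀ (l : List ℕ) (d : ℕ), L l d = KK l d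
  | [], d => by rw [L, KK]
  | (b :: t), 0 => by
    rw [L, KK_zero]
  | (0 :: t), (d + 1) => by
    rw [L, KK_eq (0 :: t) d, KK_eq t (d + 1), KK, KK, Finset.sum_range_succ _ (d + 1)]
    omega
  | ((s + 1) :: []), (d + 1) => by
    have h1 : ∀ x : Finset ℕ, ∑ e ∈ x, KK [] e = 0 := fun x => Finset.sum_eq_zero fun e _ => by simp only [KK]
    have h2 : ∀ a e, KK [a] e = min (e + 1) (0 + a) - 0 := fun a e => by rw [KK, h1, List.sum_nil, zero_add]
    rw [L, KK_eq [s] d, h2, h2]
    omega
  | ((s + 1) :: c :: u), (d + 1) => by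
    have h2 : ∀ a t e, KK (a :: t) e = ∑ e ∈ Finset.range (e + 1), KK t e + (min (e + 1) (t.sum + a) - t.sum) := fun a t e => by rw [KK]
    rw [L, KK_eq (s :: c :: u) d, KK_eq ((c + 1) :: u) (d + 1), h2 s, h2 (s + 1), Finset.sum_range_succ _ (d + 1), h2 c u (d + 1), h2 (c + 1), List.sum_cons]
    omega
termination_by l d => (l.length, d)

section

variable {m : ℕ}

theorem lex_iff (a b : Fin m → ℕ) : toLex a < toLex b ↔ ∃ i, (∀ j < i, a j = b j) ∧ a i < b i := Iff.rfl

theorem lex_succ (a b : Fin (m + 1) → ℕ) : toLex a < toLex b ↔ toLex (fun i : Fin m => a i.castSucc) < toLex (fun i : Fin m => b i.castSucc) ∨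
    ((∀ i : Fin m, a i.castSucc = b i.castSucc) ∧ a (Fin.last m) < b (Fin.last m)) := by
  rw [lex_iff, lex_iff]
  constructor
  · rintro ⟨i, hi, hi2⟩
    induction i using Fin.lastCases with
    | last => exact Or.inr ⟨fun j => hi _ (Fin.castSucc_lt_last j), hi2⟩
    | cast i => exact Or.inl ⟨i, fun j hj => hi _ (Fin.castSucc_lt_castSucc_iff.2 hj), hi2⟩
  · rintro (⟨i, hi, hi2⟩ | ⟨h1, h2⟩)
    · refine ⟨i.castSucc, fun j hj => ?_, hi2⟩
      induction j using Fin.lastCases with
      | last => exact absurd hj (not_lt.2 (Fin.le_last _))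
      | cast j => exact hi j (Fin.castSucc_lt_castSucc_iff.1 hj)
    · refine ⟨Fin.last m, fun j hj => ?_, h2⟩
      induction j using Fin.lastCases with
      | last => exact absurd hj (lt_irrefl _)
      | cast j => exact h1 j

instance fin_sum (d : ℕ) (P : (Fin m → ℕ) → Prop) : Finite {a : Fin m → ℕ // ∑ i, a i = d ∧ P a} := by
  refine Finite.of_injective (fun a => fun i => (⟨a.1 i, Nat.lt_succ_of_le ?_⟩ : Fin (d + 1))) ?_
  · exact (Finset.single_le_sum (fun _ _ => Nat.zero_le _) (Finset.mem_univ i)).trans a.2.1.le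
  · intro a b h
    apply Subtype.ext
    funext i
    have := congrFun h i
    simpa using this

end

theorem card_split {A : Type} (P Q : A → Prop) [Finite {a // P a}] :
    Nat.card {a // P a} ≤ Nat.card {a // P a ∧ Q a} + Nat.card {a // P a ∧ ¬ Q a} := by
  classical
  have h1 : Finite {a // P a ∧ Q a} := Finite.of_injective (fun a => (⟨a.1, a.2.1⟩ : {a // P a})) fun a b h => Subtype.ext (by simpa using h)
  have h2 : Finite {a // P a ∧ ¬ Q a} := Finite.of_injective (fun a => (⟨a.1, a.2.1⟩ : {a // P a})) fun a b h => Subtype.ext (by simpa using h)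
  rw [← Nat.card_sum]
  refine Nat.card_le_card_of_injective (fun a => if h : Q a.1 then Sum.inl ⟨a.1, a.2, h⟩ else Sum.inr ⟨a.1, a.2, h⟩) ?_
  intro a b h
  dsimp only at h
  split_ifs at h with h3 h4 h4
  · exact Subtype.ext (by simpa using h)
  · exact Subtype.ext (by simpa using h)

theorem card_le : ∀ (m : ℕ) (β : Fin m → ℕ) (d : ℕ),
    Nat.card {a : Fin (m + 1) → ℕ // ∑ i, a i = d ∧ toLex (fun i : Fin m => a i.castSucc) < toLex β} ≤
      KK (List.ofFn fun j : Fin m => β j.rev) d
  | 0, β, d => by
    have : IsEmpty {a : Fin (0 + 1) → ℕ // ∑ i, a i = d ∧ toLex (fun i : Fin 0 => a i.castSucc) < toLex β} := by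
      refine ⟨fun a => ?_⟩
      obtain ⟨i, _⟩ := (lex_iff _ _).1 a.2.2
      exact i.elim0
    rw [Nat.card_of_isEmpty]
    exact Nat.zero_le _
  | (m + 1), β, d => by
    obtain ⟨σ, hσ⟩ : ∃ σ, σ = ∑ i : Fin m, β i.castSucc := ⟨_, rfl⟩
    have hl : (List.ofFn fun j : Fin (m + 1) => β j.rev) = β (Fin.last m) :: List.ofFn (fun j : Fin m => β (j.rev).castSucc) := by
      rw [List.ofFn_succ, Fin.rev_zero]
      congr 1
      congr 1
      funext j
      rw [Fin.rev_succ]
    have hs : (List.ofFn fun j : Fin m => β (j.rev).castSucc).sum = σ := by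
      rw [List.sum_ofFn, hσ]
      exact Fintype.sum_equiv Fin.revPerm _ _ fun i => by rw [Fin.revPerm_apply]
    rw [hl, KK, hs]
    have hsum : ∀ a : Fin (m + 1 + 1) → ℕ, ∑ i, a i = ∑ i : Fin (m + 1), a i.castSucc + a (Fin.last (m + 1)) := fun a => Fin.sum_univ_castSucc a
    have hsum2 : ∀ a : Fin (m + 1 + 1) → ℕ, ∑ i : Fin (m + 1), a i.castSucc = ∑ i : Fin m, a i.castSucc.castSucc + a (Fin.last m).castSucc :=
      fun a => Fin.sum_univ_castSucc fun i : Fin (m + 1) => a i.castSucc
    refine (card_split _ (fun a => toLex (fun i : Fin m => a i.castSucc.castSucc) < toLex (fun i : Fin m => β i.castSucc))).trans (Nat.add_le_add ?_ ?_)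
    · have hcard : Nat.card (Σ e : Fin (d + 1), {a : Fin (m + 1) → ℕ // ∑ i, a i = e.1 ∧
          toLex (fun i : Fin m => a i.castSucc) < toLex (fun i : Fin m => β i.castSucc)}) ≤
          ∑ e ∈ Finset.range (d + 1), KK (List.ofFn (fun j : Fin m => β (j.rev).castSucc)) e := by
        rw [Nat.card_sigma, Finset.sum_range]
        exact Finset.sum_le_sum fun e _ => card_le m (fun i => β i.castSucc) e.1
      refine le_trans (Nat.card_le_card_of_injective (fun a => ⟨⟨∑ i : Fin (m + 1), a.1 i.castSucc, by
        have := a.2.1.1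
        rw [hsum] at this
        omega⟩, fun i => a.1 i.castSucc, rfl, a.2.2⟩) ?_) hcard
      · intro a b h
        rw [Sigma.mk.injEq] at h
        obtain ⟨h1, h2⟩ := h
        rw [Fin.mk.injEq] at h1
        have h3 : (fun i : Fin (m + 1) => a.1 i.castSucc) = fun i : Fin (m + 1) => b.1 i.castSucc := by
          have h4 : ∀ (e e' : Fin (d + 1)) (x : {a : Fin (m + 1) → ℕ // ∑ i, a i = e.1 ∧
              toLex (fun i : Fin m => a i.castSucc) < toLex (fun i : Fin m => β i.castSucc)}) (y : {a : Fin (m + 1) → ℕ // ∑ i, a i = e'.1 ∧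
              toLex (fun i : Fin m => a i.castSucc) < toLex (fun i : Fin m => β i.castSucc)}), e = e' → x ≍ y → x.1 = y.1 := by
            intro e e' x y he hxy
            subst he
            rw [eq_of_heq hxy]
          exact h4 _ _ _ _ (Fin.ext h1) h2
        apply Subtype.ext
        funext i
        induction i using Fin.lastCases with
        | last =>
          have h5 := a.2.1.1
          have h6 := b.2.1.1
          rw [hsum] at h5 h6
          omega
        | cast i => exact congrFun h3 i
    · have hle : ∀ a : {a : Fin (m + 1 + 1) → ℕ // (∑ i, a i = d ∧ toLex (fun i : Fin (m + 1) => a i.castSucc) < toLex β) ∧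
          ¬ toLex (fun i : Fin m => a i.castSucc.castSucc) < toLex (fun i : Fin m => β i.castSucc)},
          (∀ i : Fin m, a.1 i.castSucc.castSucc = β i.castSucc) ∧ a.1 (Fin.last m).castSucc < β (Fin.last m) := by
        intro a
        have h1 := a.2.1.2
        rw [lex_succ] at h1
        exact h1.resolve_left a.2.2
      have hσa : ∀ a : {a : Fin (m + 1 + 1) → ℕ // (∑ i, a i = d ∧ toLex (fun i : Fin (m + 1) => a i.castSucc) < toLex β) ∧
          ¬ toLex (fun i : Fin m => a i.castSucc.castSucc) < toLex (fun i : Fin m => β i.castSucc)},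
          σ + a.1 (Fin.last m).castSucc + a.1 (Fin.last (m + 1)) = d := by
        intro a
        have h1 := a.2.1.1
        rw [hsum, hsum2, Finset.sum_congr rfl fun i _ => (hle a).1 i, ← hσ] at h1
        exact h1
      refine le_trans (Nat.card_le_card_of_injective (β := Fin (min (d + 1) (σ + β (Fin.last m)) - σ)) (fun a => ⟨a.1 (Fin.last m).castSucc, by
        have h1 := hσa a
        have h2 := (hle a).2
        omega⟩) ?_) ?_
      · intro a b h
        rw [Fin.mk.injEq] at h
        have h1 := hσa a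
        have h2 := hσa b
        apply Subtype.ext
        funext i
        induction i using Fin.lastCases with
        | last => omega
        | cast i =>
          induction i using Fin.lastCases with
          | last => exact h
          | cast i => rw [(hle a).1 i, (hle b).1 i]
      · rw [Nat.card_fin]

theorem t_COMB : S_Comb := by
  intro m β d
  rw [KK_eq]
  exact card_le m β d

end Q282DT
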