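import Pool.Agent.Q282.DT.Stm
import Mathlib.RingTheory.KrullDimension.Basic
import Mathlib.RingTheory.Ideal.HasGoingUp

/-!
# Homogeneous prime ideals and algebraic extensions of the ground field (DT-EXT)
-/

set_option autoImplicit false

namespace Q282DT

open MvPolynomial

/-- Krull dimension is preserved by integral extensions of domains (after `TH958.FP.Dim`). -/
theorem dim_integral {A B : Type} [CommRing A] [CommRing B] [IsDomain B] [Algebra A B]
    [Algebra.IsIntegral A B] (hinj : Function.Injective (algebraMap A B)) :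
    ringKrullDim B = ringKrullDim A := by
  apply le_antisymm
  · refine Order.krullDim_le_of_strictMono (PrimeSpectrum.comap (algebraMap A B)) ?_
    intro p q hpq
    exact Ideal.IsIntegral.comap_lt_comap hpq
  · refine iSup_le fun l => ?_
    obtain ⟨Q, hQ, hQl⟩ := Ideal.exists_ideal_over_prime_of_isIntegral_of_isDomain (S := B)
      (RelSeries.head l).asIdeal (by
        rw [(RingHom.injective_iff_ker_eq_bot _).1 hinj]
        exact bot_le)
    have hlo : Q.LiesOver (RelSeries.head l).asIdeal := ⟨hQl.symm⟩
    obtain ⟨L, hL, -, -⟩ := Ideal.exists_ltSeries_of_hasGoingUp l Q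
    rw [← hL]
    exact le_iSup (fun p : LTSeries (PrimeSpectrum B) => (p.length : WithBot ℕ∞)) L

section

variable {F K : Type} [Field F] [Field K] [Algebra F K] [Algebra.IsAlgebraic F K] {n : ℕ}

theorem int_map : (MvPolynomial.map (algebraMap F K) : MvPolynomial (Fin n) F →+* MvPolynomial (Fin n) K).IsIntegral := by
  intro f
  induction f using MvPolynomial.induction_on with
  | C a =>
    obtain ⟨g, hg, hga⟩ := (Algebra.IsIntegral.isIntegral (R := F) a)
    refine ⟨g.map C, hg.map _, ?_⟩
    rw [Polynomial.eval₂_map]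
    have h1 : (MvPolynomial.map (algebraMap F K) : MvPolynomial (Fin n) F →+* MvPolynomial (Fin n) K).comp C = C.comp (algebraMap F K) := by
      ext x
      simp
    rw [h1, ← Polynomial.hom_eval₂, hga, map_zero]
  | add p q hp hq => exact hp.add _ hq
  | mul_X p i hp =>
    refine hp.mul _ ?_
    have h1 : (X i : MvPolynomial (Fin n) K) = MvPolynomial.map (algebraMap F K) (X i) := by simp
    rw [h1]
    exact RingHom.isIntegralElem_map _

theorem t_EXT : S_Ext := by
  intro F K _ _ _ _ n p hp hph
  let _ : Algebra (MvPolynomial (Fin n) F) (MvPolynomial (Fin n) K) := (MvPolynomial.map (algebraMap F K)).toAlgebra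
  have hint : Algebra.IsIntegral (MvPolynomial (Fin n) F) (MvPolynomial (Fin n) K) := ⟨int_map⟩
  have hinj : Function.Injective (algebraMap (MvPolynomial (Fin n) F) (MvPolynomial (Fin n) K)) :=
    MvPolynomial.map_injective _ (algebraMap F K).injective
  obtain ⟨q₁, hq₁, hq₁p⟩ := Ideal.exists_ideal_over_prime_of_isIntegral_of_isDomain (S := MvPolynomial (Fin n) K) p (by
    rw [(RingHom.injective_iff_ker_eq_bot _).1 hinj]
    exact bot_le)
  obtain ⟨q, hq, hqh, hqq, hqI, hqf⟩ := exists_core q₁ hq₁
  have hcom : q.comap (algebraMap (MvPolynomial (Fin n) F) (MvPolynomial (Fin n) K)) = p := by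
    apply le_antisymm
    · rw [← hq₁p]
      exact Ideal.comap_mono hqq
    · intro f hf
      rw [Ideal.mem_comap, ← sum_homogeneousComponent f, map_sum]
      refine q.sum_mem fun t _ => hqf _ ?_ t ?_
      · have h1 := hph f hf t
        rw [← hq₁p] at h1
        exact h1
      · exact (homogeneousComponent_isHomogeneous t f).map _
  refine ⟨q, hq, hqh, hcom, ?_⟩
  have hlo : q.LiesOver p := ⟨hcom.symm⟩
  have : IsDomain (MvPolynomial (Fin n) K ⧸ q) := Ideal.Quotient.isDomain q
  have h2 : Algebra.IsIntegral (MvPolynomial (Fin n) F ⧸ p) (MvPolynomial (Fin n) K ⧸ q) := inferInstance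
  refine dim_integral (A := MvPolynomial (Fin n) F ⧸ p) (B := MvPolynomial (Fin n) K ⧸ q) ?_
  exact FaithfulSMul.algebraMap_injective _ _

end

end Q282DT
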