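import Pool.Agent.Q282.DT.Main
import Pool.Agent.Q282.DT.Comb
import Mathlib.FieldTheory.IsAlgClosed.AlgebraicClosure
import Mathlib.Algebra.Order.Antidiag.FinsuppEquiv
import Mathlib.LinearAlgebra.Dual.Lemmas
import Mathlib.Order.Bounds.Basic

/-!
# Boguslavsky's conjecture: the upper bound and the assembly
-/

set_option autoImplicit false
set_option linter.unusedSectionVars false

namespace Q282DT

open MvPolynomial

/-- the exponent vectors -/
noncomputable def A (m d : ℕ) : Finset (Fin (m + 1) → ℕ) :=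
  ((Finset.univ : Finset (Fin (m + 1))).finsuppAntidiag d).map ⟨fun a : Fin (m + 1) →₀ ℕ => (⇑a : Fin (m + 1) → ℕ), DFunLike.coe_injective⟩

theorem mem_A {m d : ℕ} {a : Fin (m + 1) → ℕ} : a ∈ A m d ↔ ∑ i, a i = d := by
  rw [A, Finset.mem_map]
  constructor
  · rintro ⟨b, hb, rfl⟩
    rw [Finset.mem_finsuppAntidiag] at hb
    exact hb.1
  · intro h
    refine ⟨Finsupp.equivFunOnFinite.symm a, ?_, rfl⟩
    rw [Finset.mem_finsuppAntidiag]
    exact ⟨h, Finset.subset_univ _⟩

theorem card_A (m d : ℕ) : (A m d).card = (m + d).choose d := by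
  rw [A, Finset.card_map, Finset.card_finsuppAntidiag_nat_eq_choose, Finset.card_univ, Fintype.card_fin]
  congr 1
  omega

theorem card_P (m d : ℕ) (P : (Fin (m + 1) → ℕ) → Prop) [DecidablePred P] : Nat.card {a : Fin (m + 1) → ℕ // ∑ i, a i = d ∧ P a} = ((A m d).filter P).card := by
  rw [← Fintype.card_coe, ← Nat.card_eq_fintype_card]
  refine Nat.card_congr (Equiv.subtypeEquivRight fun a => ?_)
  rw [Finset.mem_filter, mem_A]

section

variable {k : Type} [Field k]

theorem N_le (m d : ℕ) : N k (m + 1) d ≤ (A m d).card := by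
  classical
  rw [A, Finset.card_map, N]
  have h1 : homogeneousSubmodule (Fin (m + 1)) k d ≤ Submodule.span k
      ((((Finset.univ : Finset (Fin (m + 1))).finsuppAntidiag d).image fun e => (monomial e (1 : k)) : Finset (MvPolynomial (Fin (m + 1)) k)) : Set (MvPolynomial (Fin (m + 1)) k)) := by
    intro f hf
    rw [f.as_sum]
    refine Submodule.sum_mem _ fun e he => ?_
    have h2 : monomial e (f.coeff e) = f.coeff e • (monomial e (1 : k)) := by
      rw [smul_monomial, smul_eq_mul, mul_one]
    rw [h2]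
    refine Submodule.smul_mem _ _ (Submodule.subset_span ?_)
    rw [Finset.mem_coe, Finset.mem_image]
    refine ⟨e, ?_, rfl⟩
    rw [Finset.mem_finsuppAntidiag]
    refine ⟨?_, Finset.subset_univ _⟩
    have h3 : e.degree = d := by
      rw [Finsupp.degree_eq_weight_one]
      exact hf (mem_support_iff.1 he)
    rw [← h3, Finsupp.degree_apply]
    exact (Finset.sum_subset (Finset.subset_univ _) fun i _ hi => Finsupp.notMem_support_iff.1 hi).symm
  exact (Submodule.finrank_mono h1).trans ((finrank_span_finset_le_card _).trans Finset.card_image_le)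

end

section

variable {F K : Type} [Field F] [Field K] [Algebra F K] {n r : ℕ}

/-- linear independence is preserved by field extensions -/
theorem ind_map {f : Fin r → MvPolynomial (Fin n) F} (hf : LinearIndependent F f) :
    LinearIndependent K fun j => MvPolynomial.map (algebraMap F K) (f j) := by
  rw [Fintype.linearIndependent_iff] at hf ⊢
  intro c hc j
  rw [← Module.forall_dual_apply_eq_zero_iff F]
  intro φ
  refine hf (fun j => φ (c j)) ?_ j
  ext e
  rw [coeff_sum, coeff_zero]
  have h1 := congrArg (coeff e) hc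
  rw [coeff_sum, coeff_zero] at h1
  have h2 := congrArg φ h1
  rw [map_sum, map_zero] at h2
  rw [← h2]
  refine Finset.sum_congr rfl fun j _ => ?_
  rw [coeff_smul, coeff_smul, coeff_map, smul_eq_mul, smul_eq_mul, mul_comm (c j), ← Algebra.smul_def, map_smul, smul_eq_mul, mul_comm]

attribute [local instance] MvPolynomial.gradedAlgebra

theorem hom_span_range {f : Fin r → MvPolynomial (Fin n) F} {d : ℕ} (hf : ∀ j, (f j).IsHomogeneous d) : Hom (Ideal.span (Set.range f)) := by
  rw [hom_iff]
  refine Ideal.homogeneous_span _ _ ?_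
  rintro _ ⟨j, rfl⟩
  exact ⟨d, hf j⟩

end

/-- **The upper bound.** -/
theorem upper (hC : S_Cut) (hE : S_Ext) (F : Type) [Field F] (m d r : ℕ) (hm : 1 ≤ m) (f : Fin r → MvPolynomial (Fin (m + 1)) F)
    (hf : LinearIndependent F f) (hd : ∀ j, (f j).IsHomogeneous d) :
    r + Nat.card {a : Fin (m + 1) → ℕ // ∑ i, a i = d ∧ toLex (fun i : Fin m => a i.castSucc) < toLex (dimType f)} ≤ (A m d).card := by
  classical
  obtain ⟨I, hI⟩ : ∃ I, I = Ideal.span (Set.range f) := ⟨_, rfl⟩
  obtain ⟨g, hg⟩ : ∃ g : Fin r → MvPolynomial (Fin (m + 1)) (AlgebraicClosure F), g = fun j => MvPolynomial.map (algebraMap F (AlgebraicClosure F)) (f j) := ⟨_, rfl⟩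
  have hIh : Hom I := by
    rw [hI]
    exact hom_span_range hd
  have hfin : I.minimalPrimes.Finite := Ideal.finite_minimalPrimes_of_isNoetherianRing _ _
  have hδ : ∀ p : Ideal (MvPolynomial (Fin (m + 1)) F), ∃ e : ℕ, (∃ e : ℕ, ringKrullDim (MvPolynomial (Fin (m + 1)) F ⧸ p) = (e : WithBot ℕ∞)) →
      ringKrullDim (MvPolynomial (Fin (m + 1)) F ⧸ p) = (e : WithBot ℕ∞) := by
    intro p
    by_cases h : ∃ e : ℕ, ringKrullDim (MvPolynomial (Fin (m + 1)) F ⧸ p) = (e : WithBot ℕ∞)
    · obtain ⟨e, he⟩ := h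
      exact ⟨e, fun _ => he⟩
    · exact ⟨0, fun h' => absurd h' h⟩
  choose δ hδ using hδ
  obtain ⟨s, hs⟩ : ∃ s : Finset (Ideal (MvPolynomial (Fin (m + 1)) F)), s = hfin.toFinset.filter fun p =>
    ringKrullDim (MvPolynomial (Fin (m + 1)) F ⧸ p) = (δ p : WithBot ℕ∞) ∧ 1 ≤ δ p ∧ δ p ≤ m := ⟨_, rfl⟩
  have hmem : ∀ p, p ∈ s ↔ p ∈ I.minimalPrimes ∧ ringKrullDim (MvPolynomial (Fin (m + 1)) F ⧸ p) = (δ p : WithBot ℕ∞) ∧ 1 ≤ δ p ∧ δ p ≤ m := by
    intro p
    rw [hs, Finset.mem_filter, Set.Finite.mem_toFinset]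
  have hq : ∀ p : Ideal (MvPolynomial (Fin (m + 1)) F), ∃ q : Ideal (MvPolynomial (Fin (m + 1)) (AlgebraicClosure F)), p ∈ I.minimalPrimes →
      q.IsPrime ∧ Hom q ∧ q.comap (MvPolynomial.map (algebraMap F (AlgebraicClosure F))) = p ∧
      ringKrullDim (MvPolynomial (Fin (m + 1)) (AlgebraicClosure F) ⧸ q) = ringKrullDim (MvPolynomial (Fin (m + 1)) F ⧸ p) := by
    intro p
    by_cases h : p ∈ I.minimalPrimes
    · obtain ⟨q, h1⟩ := hE F (AlgebraicClosure F) (m + 1) p h.1.1 (hom_minimal hIh h)
      exact ⟨q, fun _ => h1⟩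
    · exact ⟨⊥, fun h' => absurd h' h⟩
  choose q hq using hq
  have hgh : ∀ j, (g j).IsHomogeneous d := by
    intro j
    rw [hg]
    exact (hd j).map _
  have hFam : Fam (Ideal.span (Set.range g)) s q δ (List.ofFn fun j : Fin m => dimType f j.rev) :=
    { hom := hom_span_range hgh
      prime := fun p hp => (hq p ((hmem p).1 hp).1).1
      homp := fun p hp => (hq p ((hmem p).1 hp).1).2.1
      le := fun p hp => by
        have h1 := (hmem p).1 hp
        rw [Ideal.span_le]
        rintro _ ⟨j, rfl⟩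
        have h2 : f j ∈ (q p).comap (MvPolynomial.map (algebraMap F (AlgebraicClosure F))) := by
          rw [(hq p h1.1).2.2.1]
          apply h1.1.1.2
          rw [hI]
          exact Ideal.subset_span ⟨j, rfl⟩
        rw [hg]
        exact h2
      dim := fun p hp => by
        have h1 := (hmem p).1 hp
        rw [(hq p h1.1).2.2.2, h1.2.1]
      pos := fun p hp => ((hmem p).1 hp).2.2.1
      inc := fun p hp p' hp' h => by
        have h1 := (hmem p).1 hp
        have h2 := (hmem p').1 hp'
        have h3 : p ≤ p' := by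
          rw [← (hq p h1.1).2.2.1, ← (hq p' h2.1).2.2.1]
          exact Ideal.comap_mono h
        exact le_antisymm h3 (h2.1.2 h1.1.1 h3)
      cnt := fun j => by
        by_cases hj : j < m
        · have h1 : (List.ofFn fun j : Fin m => dimType f j.rev).getD j 0 = dimType f (Fin.rev ⟨j, hj⟩) := by
            rw [List.getD_eq_getElem?_getD, List.getElem?_ofFn, dif_pos hj]
            rfl
          have h2 : (m - (Fin.rev ⟨j, hj⟩ : Fin m).1) = j + 1 := by
            rw [Fin.val_rev]
            show m - (m - (j + 1)) = j + 1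
            omega
          rw [h1, dimType, h2, ← hI, ← Set.ncard_coe_finset]
          congr 1
          ext p
          rw [Finset.mem_coe, Finset.mem_filter, hmem]
          constructor
          · rintro ⟨h3, h4⟩
            have h5 := hδ p ⟨_, h4⟩
            have h6 : δ p = j + 1 := by
              rw [h5] at h4
              exact_mod_cast h4
            exact ⟨⟨h3, h5, by omega, by omega⟩, h6⟩
          · rintro ⟨⟨h3, h4, _⟩, h5⟩
            refine ⟨h3, ?_⟩
            rw [h4, h5]
        · rw [List.getD_eq_getElem?_getD, List.getElem?_ofFn, dif_neg hj]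
          symm
          rw [Option.getD_none]
          rw [Finset.card_eq_zero, Finset.filter_eq_empty_iff]
          intro p hp
          have := ((hmem p).1 hp).2.2.2
          omega }
  have h1 := main hC (by omega) _ d _ s q δ hFam
  have h2 : r ≤ Dm (Ideal.span (Set.range g)) d := by
    have h3 : ∀ j, g j ∈ gr (Ideal.span (Set.range g)) d := fun j => ⟨Ideal.subset_span ⟨j, rfl⟩, hgh j⟩
    have h4 : LinearIndependent (AlgebraicClosure F) fun j => (⟨g j, h3 j⟩ : gr (Ideal.span (Set.range g)) d) := by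
      have h5 : LinearIndependent (AlgebraicClosure F) g := by
        rw [hg]
        exact ind_map hf
      exact LinearIndependent.of_comp (gr (Ideal.span (Set.range g)) d).subtype h5
    have h5 := h4.fintype_card_le_finrank
    rwa [Fintype.card_fin] at h5
  have h3 := t_COMB m (dimType f) d
  have h4 := N_le (k := AlgebraicClosure F) m d
  omega

/-- `ν` is the `r`-th exponent vector of degree `d` in descending lexicographic order -/
def IsNth (m d r : ℕ) (ν : Fin (m + 1) → ℕ) : Prop :=
  ∑ i, ν i = d ∧ Nat.card {a : Fin (m + 1) → ℕ // ∑ i, a i = d ∧ toLex ν ≤ toLex a} = r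

theorem exists_nth (m d r : ℕ) (h1 : 1 ≤ r) (h2 : r ≤ (m + d).choose d) : ∃! ν, IsNth m d r ν := by
  classical
  have hcard : ∀ ν, Nat.card {a : Fin (m + 1) → ℕ // ∑ i, a i = d ∧ toLex ν ≤ toLex a} = ((A m d).filter fun a => toLex ν ≤ toLex a).card :=
    fun ν => card_P m d fun a => toLex ν ≤ toLex a
  obtain ⟨B, hB⟩ : ∃ B : Finset (Lex (Fin (m + 1) → ℕ)), B = (A m d).map toLex.toEmbedding := ⟨_, rfl⟩
  have hBc : B.card = (m + d).choose d := by
    rw [hB, Finset.card_map, card_A]
  have hBm : ∀ a, toLex a ∈ B ↔ a ∈ A m d := by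
    intro a
    rw [hB, Finset.mem_map]
    constructor
    · rintro ⟨b, hb, hab⟩
      rwa [← toLex.injective hab]
    · intro h
      exact ⟨a, h, rfl⟩
  have hex : ∃ ν, IsNth m d r ν := by
    have hlt : (m + d).choose d - r < (m + d).choose d := by omega
    obtain ⟨ν, hν⟩ : ∃ ν : Fin (m + 1) → ℕ, toLex ν = B.orderEmbOfFin hBc ⟨_, hlt⟩ := ⟨ofLex _, rfl⟩
    refine ⟨ν, ?_, ?_⟩
    · rw [← mem_A, ← hBm, hν]
      exact B.orderEmbOfFin_mem hBc _
    · rw [hcard]
      have h3 : ((A m d).filter fun a => toLex ν ≤ toLex a).map toLex.toEmbedding =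
          (Finset.Ici (⟨(m + d).choose d - r, hlt⟩ : Fin ((m + d).choose d))).map (B.orderEmbOfFin hBc).toEmbedding := by
        ext x
        rw [Finset.mem_map, Finset.mem_map]
        constructor
        · rintro ⟨a, ha, rfl⟩
          rw [Finset.mem_filter] at ha
          have h4 : toLex a ∈ Set.range (B.orderEmbOfFin hBc) := by
            rw [Finset.range_orderEmbOfFin, Finset.mem_coe, hBm]
            exact ha.1
          obtain ⟨j, hj⟩ := h4
          refine ⟨j, ?_, hj⟩
          rw [Finset.mem_Ici, ← (B.orderEmbOfFin hBc).le_iff_le, ← hν, hj]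
          exact ha.2
        · rintro ⟨j, hj, rfl⟩
          rw [Finset.mem_Ici] at hj
          refine ⟨ofLex (B.orderEmbOfFin hBc j), ?_, rfl⟩
          rw [Finset.mem_filter, ← hBm]
          refine ⟨B.orderEmbOfFin_mem hBc _, ?_⟩
          rw [hν]
          exact (B.orderEmbOfFin hBc).le_iff_le.2 hj
      have h4 := congrArg Finset.card h3
      rw [Finset.card_map, Finset.card_map, Fin.card_Ici] at h4
      rw [h4]
      show (m + d).choose d - ((m + d).choose d - r) = r
      omega
  obtain ⟨ν, hν⟩ := hex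
  refine ⟨ν, hν, ?_⟩
  intro ν' hν'
  have key : ∀ a b, IsNth m d r a → IsNth m d r b → ¬ toLex a < toLex b := by
    intro a b ha hb hab
    have h3 : ((A m d).filter fun x => toLex b ≤ toLex x) ⊂ (A m d).filter fun x => toLex a ≤ toLex x := by
      rw [Finset.ssubset_iff_of_subset]
      · refine ⟨a, ?_, ?_⟩
        · rw [Finset.mem_filter, mem_A]
          exact ⟨ha.1, le_rfl⟩
        · rw [Finset.mem_filter]
          rintro ⟨_, h4⟩
          exact absurd hab (not_lt.2 h4)
      · intro x hx
        rw [Finset.mem_filter] at hx ⊢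
        exact ⟨hx.1, hab.le.trans hx.2⟩
    have h4 := Finset.card_lt_card h3
    rw [← hcard, ← hcard, ha.2, hb.2] at h4
    exact lt_irrefl _ h4
  exact toLex.injective (le_antisymm (not_lt.1 (key _ _ hν hν')) (not_lt.1 (key _ _ hν' hν)))

/-- **The upper bound**, over every field. -/
theorem upper2 (hC : S_Cut) (hE : S_Ext) (F : Type) [Field F] (m d r : ℕ) (hm : 1 ≤ m) (f : Fin r → MvPolynomial (Fin (m + 1)) F)
    (hf : LinearIndependent F f) (hd : ∀ j, (f j).IsHomogeneous d) (ν : Fin (m + 1) → ℕ) (hν : IsNth m d r ν) :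
    toLex (dimType f) ≤ toLex (fun i : Fin m => ν i.castSucc) := by
  classical
  by_contra h
  rw [not_le] at h
  have h1 := upper hC hE F m d r hm f hf hd
  have h2 := hν.2
  rw [card_P m d fun a => toLex ν ≤ toLex a] at h2
  rw [card_P m d fun a => toLex (fun i : Fin m => a i.castSucc) < toLex (dimType f)] at h1
  have h3 := Finset.card_filter_add_card_filter_not (s := A m d) (fun a => toLex ν ≤ toLex a)
  have h4 : insert ν ((A m d).filter fun a => ¬ toLex ν ≤ toLex a) ⊆ (A m d).filter fun a => toLex (fun i : Fin m => a i.castSucc) < toLex (dimType f) := by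
    intro a ha
    rw [Finset.mem_insert] at ha
    rw [Finset.mem_filter]
    rcases ha with rfl | ha
    · exact ⟨mem_A.2 hν.1, h⟩
    · rw [Finset.mem_filter, not_le] at ha
      refine ⟨ha.1, lt_of_le_of_lt ?_ h⟩
      rcases (lex_succ _ _).1 ha.2 with h5 | ⟨h5, _⟩
      · exact h5.le
      · exact (congrArg toLex (funext h5)).le
  have h5 := Finset.card_le_card h4
  rw [Finset.card_insert_of_notMem] at h5
  · omega
  · rw [Finset.mem_filter]
    rintro ⟨_, h6⟩
    exact h6 le_rfl

/-- the set of the dim-types -/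
def dimTypes (F : Type) [Field F] (m d r : ℕ) : Set (Lex (Fin m → ℕ)) :=
  {α | ∃ f : Fin r → MvPolynomial (Fin (m + 1)) F, LinearIndependent F f ∧ (∀ j, (f j).IsHomogeneous d) ∧ α = toLex (dimType f)}

theorem final (hC : S_Cut) (hE : S_Ext) (hX : S_Exi) (F : Type) [Field F] (m d r : ℕ) (hm : 1 ≤ m) (hd : 1 ≤ d) (c : Fin (d + 1) → F)
    (hc : Function.Injective c) (ν : Fin (m + 1) → ℕ) (hν : IsNth m d r ν) :
    IsGreatest (dimTypes F m d r) (toLex fun i : Fin m => ν i.castSucc) := by
  constructor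
  · obtain ⟨f, h1, h2, h3⟩ := hX F m d hd c hc ν hν.1 r hν.2.symm
    exact ⟨f, h1, h2, congrArg toLex (funext fun i => (h3 i).symm)⟩
  · rintro _ ⟨f, h1, h2, rfl⟩
    exact upper2 hC hE F m d r hm f h1 h2 ν hν

end Q282DT
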