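import Pool.Agent.Q282.DT.Hil
import Mathlib.RingTheory.KrullDimension.NonZeroDivisors
import Mathlib.RingTheory.KrullDimension.PID
import Mathlib.RingTheory.Polynomial.Basic
import Mathlib.RingTheory.KrullDimension.Field
import Mathlib.RingTheory.MvPolynomial.Ideal

/-!
# Points, dimensions, and the choice of the hyperplanes
-/

set_option autoImplicit false
set_option linter.unusedSectionVars false

namespace Q282DT

open MvPolynomial

section

variable {R : Type} [CommRing R]

/-- the dimension decreases -/
theorem dim_lt {a b : Ideal R} (ha : a.IsPrime) (hab : a < b) : ringKrullDim (R ⧸ b) + 1 ≤ ringKrullDim (R ⧸ a) := by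
  obtain ⟨x, hxb, hxa⟩ := Set.exists_of_ssubset hab
  have : IsDomain (R ⧸ a) := Ideal.Quotient.isDomain a
  have h0 : (Ideal.Quotient.mk a x) ∈ nonZeroDivisors (R ⧸ a) := by
    rw [mem_nonZeroDivisors_iff_ne_zero, Ne, Ideal.Quotient.eq_zero_iff_mem]
    exact hxa
  have h1 := ringKrullDim_quotient_succ_le_of_nonZeroDivisor h0
  refine le_trans (add_le_add_left ?_ 1) h1
  have h2 : Ideal.span {Ideal.Quotient.mk a x} ≤ RingHom.ker (Ideal.Quotient.factor hab.le) := by
    rw [Ideal.span_singleton_le_iff_mem, RingHom.mem_ker, Ideal.Quotient.factor_mk, Ideal.Quotient.eq_zero_iff_mem]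
    exact hxb
  refine ringKrullDim_le_of_surjective (Ideal.Quotient.lift _ (Ideal.Quotient.factor hab.le) fun y hy => h2 hy) ?_
  intro y
  obtain ⟨z, rfl⟩ := Ideal.Quotient.mk_surjective y
  exact ⟨Ideal.Quotient.mk _ (Ideal.Quotient.mk a z), rfl⟩

end

section

variable {k : Type} [Field k] {n : ℕ}

/-- the space of the linear forms in an ideal -/
lemma mem_of_vars {a : Ideal (MvPolynomial (Fin n) k)} (ha : ∀ i, (X i : MvPolynomial (Fin n) k) ∈ a) (f : MvPolynomial (Fin n) k)
    (hf : constantCoeff f = 0) : f ∈ a := by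
  have h1 : Ideal.span (Set.range (X : Fin n → MvPolynomial (Fin n) k)) ≤ a := by
    rw [Ideal.span_le]
    rintro _ ⟨i, rfl⟩
    exact ha i
  apply h1
  rw [← Set.image_univ, mem_ideal_span_X_image]
  intro m hm
  by_contra hcon
  push Not at hcon
  have h2 : m = 0 := Finsupp.ext fun i => hcon i (Set.mem_univ i)
  rw [mem_support_iff, h2] at hm
  exact hm hf

/-- an ideal that contains the variables is maximal or the unit ideal -/
theorem dim_zero {a : Ideal (MvPolynomial (Fin n) k)} (hp : a.IsPrime) (ha : ∀ i, (X i : MvPolynomial (Fin n) k) ∈ a) :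
    ringKrullDim (MvPolynomial (Fin n) k ⧸ a) = 0 := by
  have h1 : a = RingHom.ker (constantCoeff : MvPolynomial (Fin n) k →+* k) := by
    apply le_antisymm
    · intro f hf
      rw [RingHom.mem_ker]
      by_contra h
      apply hp.ne_top
      have h2 : f - C (constantCoeff f) ∈ a := mem_of_vars ha _ (by simp)
      have h3 : C (constantCoeff f) ∈ a := by
        have h4 := a.sub_mem hf h2
        rwa [sub_sub_cancel] at h4
      rw [Ideal.eq_top_iff_one]
      have h4 := a.mul_mem_left (C (constantCoeff f)⁻¹) h3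
      rwa [← C_mul, inv_mul_cancel₀ h, C_1] at h4
    · intro f hf
      exact mem_of_vars ha f hf
  have h2 : Function.Surjective (constantCoeff : MvPolynomial (Fin n) k →+* k) := fun c => ⟨C c, by simp⟩
  rw [h1, ringKrullDim_eq_of_ringEquiv (RingHom.quotientKerEquivOfSurjective h2)]
  exact ringKrullDim_eq_zero_of_field k

/-- avoidance -/
theorem avoid [Infinite k] (W : Submodule k (MvPolynomial (Fin n) k)) (T : Finset (Ideal (MvPolynomial (Fin n) k)))
    (hT : ∀ a ∈ T, ∃ w ∈ W, w ∉ a) : ∃ w ∈ W, ∀ a ∈ T, w ∉ a := by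
  classical
  by_contra hcon
  push Not at hcon
  obtain ⟨s, hs⟩ : ∃ s : Finset (Subspace k W), s = T.image fun a => (a.restrictScalars k).comap W.subtype := ⟨_, rfl⟩
  have h1 : ⋃ p ∈ s, (p : Set W) = Set.univ := by
    rw [Set.eq_univ_iff_forall]
    intro w
    obtain ⟨a, ha, haw⟩ := hcon w.1 w.2
    rw [Set.mem_iUnion₂]
    refine ⟨(a.restrictScalars k).comap W.subtype, ?_, haw⟩
    rw [hs]
    exact Finset.mem_image_of_mem _ ha
  have h2 := Subspace.top_mem_of_biUnion_eq_univ h1
  rw [hs, Finset.mem_image] at h2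
  obtain ⟨a, ha, h3⟩ := h2
  obtain ⟨w, hw, hwa⟩ := hT a ha
  apply hwa
  have h4 : (⟨w, hw⟩ : W) ∈ (a.restrictScalars k).comap W.subtype := by
    rw [h3]
    exact Submodule.mem_top
  exact h4

/-- substitution: `f ≡ f(g)` modulo the `X j - g j` -/
theorem sub_mem (a : Ideal (MvPolynomial (Fin n) k)) (g : Fin n → MvPolynomial (Fin n) k) (ha : ∀ j, X j - g j ∈ a) (f : MvPolynomial (Fin n) k) :
    f - aeval g f ∈ a := by
  rw [← Ideal.Quotient.eq_zero_iff_mem, map_sub, sub_eq_zero]
  have h1 : (Ideal.Quotient.mkₐ k a) = (Ideal.Quotient.mkₐ k a).comp (aeval g) := by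
    apply MvPolynomial.algHom_ext
    intro j
    rw [AlgHom.comp_apply, aeval_X]
    have h2 := ha j
    rw [← Ideal.Quotient.eq_zero_iff_mem, map_sub, sub_eq_zero] at h2
    exact h2
  exact congrArg (fun φ : MvPolynomial (Fin n) k →ₐ[k] MvPolynomial (Fin n) k ⧸ a => φ f) h1

lemma aeval_point (P : Fin n → k) (i : Fin n) (f : MvPolynomial (Fin n) k) (t : ℕ) (hf : f.IsHomogeneous t) :
    aeval (fun j => C (P j) * X i : Fin n → MvPolynomial (Fin n) k) f = C (eval P f) * X i ^ t := by
  have h1 : aeval (fun j => C (P j) * X i : Fin n → MvPolynomial (Fin n) k) f =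
      ∑ e ∈ f.support, C (f.coeff e * ∏ j ∈ e.support, P j ^ e j) * X i ^ t := by
    rw [aeval_def, eval₂_eq]
    refine Finset.sum_congr rfl fun e he => ?_
    have h2 : e.degree = t := by
      rw [Finsupp.degree_eq_weight_one]
      exact hf (mem_support_iff.1 he)
    simp only [mul_pow]
    rw [Finset.prod_mul_distrib, Finset.prod_pow_eq_pow_sum, ← Finsupp.degree_apply, h2, C_mul, map_prod]
    simp only [map_pow, algebraMap_eq]
    ring
  rw [h1, ← Finset.sum_mul, ← map_sum, eval_eq]

/-- over an algebraically closed field a homogeneous prime ideal of dimension one is generated by linear forms -/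
theorem point [IsAlgClosed k] {p a : Ideal (MvPolynomial (Fin n) k)} (hp : p.IsPrime) (hph : Hom p)
    (hpd : ringKrullDim (MvPolynomial (Fin n) k ⧸ p) = 1) (ha : a.IsPrime) (hah : Hom a) (hav : ∃ i, (X i : MvPolynomial (Fin n) k) ∉ a)
    (hl : ∀ l ∈ p, l.IsHomogeneous 1 → l ∈ a) : a = p := by
  -- a variable outside `p`
  obtain ⟨i, hi⟩ : ∃ i, (X i : MvPolynomial (Fin n) k) ∉ p := by
    by_contra h
    push Not at h
    rw [dim_zero hp h] at hpd
    exact zero_ne_one hpd
  -- a point
  have h1 : p ⊔ Ideal.span {X i - 1} ≠ ⊤ := by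
    intro h
    rw [Ideal.eq_top_iff_one] at h
    obtain ⟨u, hu, v, hv, huv⟩ := Submodule.mem_sup.1 h
    obtain ⟨g, hg⟩ := Ideal.mem_span_singleton'.1 hv
    -- all components of `g` of positive degree large enough are in `p`
    have h2 : ∀ t, X i * homogeneousComponent t g - homogeneousComponent (t + 1) g ∈ p := by
      intro t
      have h3 : homogeneousComponent (t + 1) (1 : MvPolynomial (Fin n) k) = 0 := by
        rw [homogeneousComponent_of_mem (isHomogeneous_one _ _), if_neg (by omega)]
      have h4 : X i * g - g = 1 - u := by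
        rw [← huv, ← hg]
        ring
      have h5 := congrArg (homogeneousComponent (t + 1)) h4
      rw [map_sub, map_sub, (comp_mul (X i) g (isHomogeneous_X _ _) t).1, h3, zero_sub] at h5
      rw [h5]
      exact p.neg_mem (hph u hu _)
    have h6 : ∀ s t, homogeneousComponent t g ∈ p ∨ g.totalDegree + 1 ≤ t + s → homogeneousComponent t g ∈ p := by
      intro s
      induction s with
      | zero =>
        intro t ht
        rcases ht with ht | ht
        · exact ht
        · rw [homogeneousComponent_eq_zero t g (by omega)]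
          exact p.zero_mem
      | succ s ih =>
        intro t ht
        rcases ht with ht | ht
        · exact ht
        · have h7 : homogeneousComponent (t + 1) g ∈ p := ih (t + 1) (Or.inr (by omega))
          have h8 := p.add_mem (h2 t) h7
          rw [sub_add_cancel] at h8
          exact (hp.mem_or_mem h8).resolve_left hi
    have h9 : g ∈ p := by
      rw [← sum_homogeneousComponent g]
      exact p.sum_mem fun t _ => h6 (g.totalDegree + 1) t (Or.inr (by omega))
    apply hp.ne_top
    rw [Ideal.eq_top_iff_one, ← huv, ← hg]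
    exact p.add_mem hu (p.mul_mem_right _ h9)
  obtain ⟨M, hM, hpM⟩ := Ideal.exists_le_maximal _ h1
  obtain ⟨P, hP⟩ := (isMaximal_iff_eq_vanishingIdeal_singleton).1 hM
  have hMm : ∀ f ∈ M, eval P f = 0 := by
    intro f hf
    rw [hP, mem_vanishingIdeal_singleton_iff] at hf
    simpa using hf
  have hPi : P i = 1 := by
    have h2 := hMm (X i - 1) (hpM (Ideal.mem_sup_right (Ideal.mem_span_singleton_self _)))
    rw [map_sub, eval_X, map_one, sub_eq_zero] at h2
    exact h2
  have hPp : ∀ f ∈ p, eval P f = 0 := fun f hf => hMm f (hpM (Ideal.mem_sup_left hf))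
  -- the prime ideal of the point
  obtain ⟨φ, hφ⟩ : ∃ φ : MvPolynomial (Fin n) k →ₐ[k] Polynomial k, φ = aeval fun j => Polynomial.C (P j) * Polynomial.X := ⟨_, rfl⟩
  have hφX : ∀ j, φ (X j) = Polynomial.C (P j) * Polynomial.X := by
    intro j
    rw [hφ, aeval_X]
  have hφh : ∀ f t, f.IsHomogeneous t → φ f = Polynomial.C (eval P f) * Polynomial.X ^ t := by
    intro f t hf
    have h2 : φ f = ∑ e ∈ f.support, Polynomial.C (f.coeff e * ∏ j ∈ e.support, P j ^ e j) * Polynomial.X ^ t := by
      rw [hφ, aeval_def, eval₂_eq]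
      refine Finset.sum_congr rfl fun e he => ?_
      have h2 : e.degree = t := by
        rw [Finsupp.degree_eq_weight_one]
        exact hf (mem_support_iff.1 he)
      simp only [mul_pow]
      rw [Finset.prod_mul_distrib, Finset.prod_pow_eq_pow_sum, ← Finsupp.degree_apply, h2, Polynomial.C_mul, map_prod]
      simp only [map_pow]
      rw [show (algebraMap k (Polynomial k)) = Polynomial.C from rfl]
      ring
    rw [h2, ← Finset.sum_mul, ← map_sum, eval_eq]
  have hφs : Function.Surjective φ := by
    intro g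
    refine ⟨Polynomial.aeval (X i) g, ?_⟩
    have h2 : (φ.comp (Polynomial.aeval (X i : MvPolynomial (Fin n) k))) = AlgHom.id k (Polynomial k) := by
      apply Polynomial.algHom_ext
      rw [AlgHom.comp_apply, Polynomial.aeval_X, hφX, hPi, map_one, one_mul, AlgHom.id_apply]
    exact congrArg (fun ψ : Polynomial k →ₐ[k] Polynomial k => ψ g) h2
  have hker : p ≤ RingHom.ker φ := by
    intro f hf
    rw [RingHom.mem_ker, ← sum_homogeneousComponent f, map_sum]
    refine Finset.sum_eq_zero fun t _ => ?_
    rw [hφh _ t (homogeneousComponent_isHomogeneous _ _), hPp _ (hph f hf t), map_zero, zero_mul]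
  have hdim : ringKrullDim (MvPolynomial (Fin n) k ⧸ RingHom.ker φ) = 1 := by
    have e := RingHom.quotientKerEquivOfSurjective (f := φ.toRingHom) hφs
    have h2 : ringKrullDim (MvPolynomial (Fin n) k ⧸ RingHom.ker φ.toRingHom) = ringKrullDim (Polynomial k) := ringKrullDim_eq_of_ringEquiv e
    have h3 : ringKrullDim (Polynomial k) = 1 := by
      rw [Polynomial.ringKrullDim_of_isNoetherianRing, ringKrullDim_eq_zero_of_field, zero_add]
    rw [h3] at h2
    exact h2
  have hpk : p = RingHom.ker φ := by
    by_contra h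
    have h2 := dim_lt hp (lt_of_le_of_ne hker h)
    rw [hdim, hpd] at h2
    exact absurd h2 (by decide)
  -- the linear forms
  have hlin : ∀ j, X j - C (P j) * X i ∈ p := by
    intro j
    rw [hpk, RingHom.mem_ker, map_sub, hφX, map_mul, hφX, hPi, map_one, one_mul]
    have h2 : φ (C (P j)) = Polynomial.C (P j) := by
      rw [hφ]
      exact aeval_C _ _
    rw [h2, sub_self]
  have hlina : ∀ j, X j - C (P j) * X i ∈ a := by
    intro j
    refine hl _ (hlin j) ((isHomogeneous_X _ _).sub ?_)
    have h2 : (C (P j) : MvPolynomial (Fin n) k).IsHomogeneous 0 := isHomogeneous_C _ _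
    have h3 := h2.mul (isHomogeneous_X k i)
    rwa [zero_add] at h3
  have hia : (X i : MvPolynomial (Fin n) k) ∉ a := by
    intro h
    obtain ⟨j, hj⟩ := hav
    apply hj
    have h2 := a.add_mem (hlina j) (a.mul_mem_left (C (P j)) h)
    rwa [sub_add_cancel] at h2
  have hiff : ∀ f t, f.IsHomogeneous t → (f ∈ a ↔ f ∈ p) := by
    intro f t hf
    have h2 : ∀ b : Ideal (MvPolynomial (Fin n) k), b.IsPrime → (X i : MvPolynomial (Fin n) k) ∉ b → (∀ j, X j - C (P j) * X i ∈ b) →
        (f ∈ b ↔ eval P f = 0) := by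
      intro b hb hib hbl
      have h3 := sub_mem b (fun j => C (P j) * X i) hbl f
      rw [aeval_point P i f t hf] at h3
      constructor
      · intro h4
        by_contra h5
        have h6 := b.sub_mem h4 h3
        rw [sub_sub_cancel] at h6
        rcases hb.mem_or_mem h6 with h7 | h7
        · apply hb.ne_top
          rw [Ideal.eq_top_iff_one]
          have h8 := b.mul_mem_left (C (eval P f)⁻¹) h7
          rwa [← C_mul, inv_mul_cancel₀ h5, C_1] at h8
        · exact hib (hb.mem_of_pow_mem _ h7)
      · intro h4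
        rw [h4, C_0, zero_mul, sub_zero] at h3
        exact h3
    rw [h2 a ha hia hlina, h2 p hp hi hlin]
  apply le_antisymm
  · intro f hf
    rw [← sum_homogeneousComponent f]
    exact p.sum_mem fun t _ => (hiff _ t (homogeneousComponent_isHomogeneous _ _)).1 (hah f hf t)
  · intro f hf
    rw [← sum_homogeneousComponent f]
    exact a.sum_mem fun t _ => (hiff _ t (homogeneousComponent_isHomogeneous _ _)).2 (hph f hf t)

end

end Q282DT
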