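import Pool.Agent.Q282.DT.Stm

/-!
# The Hilbert function and hyperplane sections
-/

set_option autoImplicit false
set_option linter.unusedSectionVars false

namespace Q282DT

open MvPolynomial

variable {k : Type} [Field k] {n : ℕ}

/-- the forms of degree `d` in the ideal `J` -/
noncomputable def gr (J : Ideal (MvPolynomial (Fin n) k)) (d : ℕ) : Submodule k (MvPolynomial (Fin n) k) :=
  J.restrictScalars k ⊓ homogeneousSubmodule (Fin n) k d

lemma mem_gr {J : Ideal (MvPolynomial (Fin n) k)} {d : ℕ} {f : MvPolynomial (Fin n) k} : f ∈ gr J d ↔ f ∈ J ∧ f.IsHomogeneous d := Iff.rfl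

instance fin_hs (d : ℕ) : FiniteDimensional k (homogeneousSubmodule (Fin n) k d) := Module.Finite.iff_fg.2 (homogeneousSubmodule_fg _ _ d)

instance fin_gr (J : Ideal (MvPolynomial (Fin n) k)) (d : ℕ) : FiniteDimensional k (gr J d) :=
  Submodule.finiteDimensional_of_le (inf_le_right : gr J d ≤ homogeneousSubmodule (Fin n) k d)

variable (k n) in
/-- the dimension of the space of all forms of degree `d` -/
noncomputable def N (d : ℕ) : ℕ := Module.finrank k (homogeneousSubmodule (Fin n) k d)

/-- the dimension of the space of the forms of degree `d` in `J` -/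
noncomputable def Dm (J : Ideal (MvPolynomial (Fin n) k)) (d : ℕ) : ℕ := Module.finrank k (gr J d)

lemma Dm_le (J : Ideal (MvPolynomial (Fin n) k)) (d : ℕ) : Dm J d ≤ N k n d := Submodule.finrank_mono inf_le_right

lemma Dm_lt (J : Ideal (MvPolynomial (Fin n) k)) (d : ℕ) (f : MvPolynomial (Fin n) k) (hf : f.IsHomogeneous d) (hJ : f ∉ J) :
    Dm J d + 1 ≤ N k n d := by
  have h1 : gr J d < homogeneousSubmodule (Fin n) k d := by
    refine lt_of_le_of_ne inf_le_right fun h => hJ ?_
    have h2 : f ∈ gr J d := by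
      rw [h]
      exact hf
    exact h2.1
  exact Submodule.finrank_lt_finrank_of_lt h1

/-- the components of a product with a linear form -/
lemma comp_mul (l f : MvPolynomial (Fin n) k) (hl : l.IsHomogeneous 1) (t : ℕ) :
    homogeneousComponent (t + 1) (l * f) = l * homogeneousComponent t f ∧ homogeneousComponent 0 (l * f) = 0 := by
  have h0 : l * f = ∑ i ∈ Finset.range (f.totalDegree + 1), l * homogeneousComponent i f := by
    rw [← Finset.mul_sum, sum_homogeneousComponent]
  have h1 : ∀ i, (l * homogeneousComponent i f).IsHomogeneous (1 + i) := fun i => hl.mul (homogeneousComponent_isHomogeneous i f)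
  constructor
  · rw [h0, map_sum]
    have h2 : ∀ i ∈ Finset.range (f.totalDegree + 1), homogeneousComponent (t + 1) (l * homogeneousComponent i f) =
        if i = t then l * homogeneousComponent i f else 0 := by
      intro i _
      rw [homogeneousComponent_of_mem (h1 i)]
      by_cases hi : i = t
      · rw [if_pos hi, if_pos (by omega)]
      · rw [if_neg hi, if_neg (by omega)]
    rw [Finset.sum_congr rfl h2, Finset.sum_ite_eq']
    split_ifs with h
    · rfl
    · rw [Finset.mem_range, not_lt] at h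
      rw [homogeneousComponent_eq_zero t f (by omega), mul_zero]
  · rw [h0, map_sum]
    refine Finset.sum_eq_zero fun i _ => ?_
    rw [homogeneousComponent_of_mem (h1 i), if_neg (by omega)]

/-- the quotient ideal `J : l` -/
noncomputable def quo (J : Ideal (MvPolynomial (Fin n) k)) (l : MvPolynomial (Fin n) k) : Ideal (MvPolynomial (Fin n) k) where
  carrier := {f | l * f ∈ J}
  add_mem' := fun {a b} ha hb => by
    show l * (a + b) ∈ J
    rw [mul_add]
    exact J.add_mem ha hb
  zero_mem' := by
    show l * 0 ∈ J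
    rw [mul_zero]
    exact J.zero_mem
  smul_mem' := fun c a ha => by
    show l * (c * a) ∈ J
    rw [mul_left_comm]
    exact J.mul_mem_left c ha

lemma mem_quo {J : Ideal (MvPolynomial (Fin n) k)} {l f : MvPolynomial (Fin n) k} : f ∈ quo J l ↔ l * f ∈ J := Iff.rfl

lemma hom_quo {J : Ideal (MvPolynomial (Fin n) k)} (hJ : Hom J) (l : MvPolynomial (Fin n) k) (hl : l.IsHomogeneous 1) : Hom (quo J l) := by
  intro f hf t
  rw [mem_quo, ← (comp_mul l f hl t).1]
  exact hJ _ hf _

lemma hom_sup {I J : Ideal (MvPolynomial (Fin n) k)} (hI : Hom I) (hJ : Hom J) : Hom (I ⊔ J) := by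
  intro f hf t
  obtain ⟨a, ha, b, hb, rfl⟩ := Submodule.mem_sup.1 hf
  rw [map_add]
  exact Submodule.add_mem_sup (hI a ha t) (hJ b hb t)

lemma hom_span {l : MvPolynomial (Fin n) k} (hl : l.IsHomogeneous 1) : Hom (Ideal.span {l}) := by
  intro f hf t
  obtain ⟨g, rfl⟩ := Ideal.mem_span_singleton'.1 hf
  rw [mul_comm g l]
  rcases t with _ | t
  · rw [(comp_mul l g hl 0).2]
    exact Ideal.zero_mem _
  · rw [(comp_mul l g hl t).1]
    exact Ideal.mul_mem_right _ _ (Ideal.mem_span_singleton_self l)

/-- **The Hilbert function of a hyperplane section.** -/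
theorem section_eq {J : Ideal (MvPolynomial (Fin n) k)} (hJ : Hom J) (l : MvPolynomial (Fin n) k) (hl : l.IsHomogeneous 1) (hl0 : l ≠ 0) (d : ℕ) :
    Dm (J ⊔ Ideal.span {l}) (d + 1) + Dm (quo J l) d = Dm J (d + 1) + N k n d := by
  obtain ⟨T, hT⟩ : ∃ T : MvPolynomial (Fin n) k →ₗ[k] MvPolynomial (Fin n) k, T = LinearMap.mulLeft k l := ⟨_, rfl⟩
  have hTa : ∀ f, T f = l * f := by
    intro f
    rw [hT]
    rfl
  have hTi : Function.Injective T := by
    intro a b h
    rw [hTa, hTa] at h
    exact mul_left_cancel₀ hl0 h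
  have h1 : gr (J ⊔ Ideal.span {l}) (d + 1) = gr J (d + 1) ⊔ (homogeneousSubmodule (Fin n) k d).map T := by
    ext f
    constructor
    · rintro ⟨hf1, hf2⟩
      obtain ⟨a, ha, b, hb, hab⟩ := Submodule.mem_sup.1 hf1
      obtain ⟨g, hg⟩ := Ideal.mem_span_singleton'.1 hb
      have h3 : f = homogeneousComponent (d + 1) a + l * homogeneousComponent d g := by
        rw [← (comp_mul l g hl d).1, ← map_add, mul_comm l g, hg, hab, homogeneousComponent_of_mem hf2, if_pos rfl]
      rw [h3]
      refine Submodule.add_mem_sup ⟨hJ a ha _, homogeneousComponent_isHomogeneous _ _⟩ ?_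
      exact ⟨homogeneousComponent d g, homogeneousComponent_isHomogeneous _ _, hTa _⟩
    · intro hf
      obtain ⟨a, ha, b, hb, rfl⟩ := Submodule.mem_sup.1 hf
      obtain ⟨g, hg, rfl⟩ := hb
      refine ⟨?_, ?_⟩
      · rw [hTa]
        exact Submodule.add_mem_sup ha.1 (Ideal.mul_mem_right _ _ (Ideal.mem_span_singleton_self l))
      · refine ha.2.add ?_
        rw [hTa, add_comm d 1]
        exact hl.mul hg
  have h2 : gr J (d + 1) ⊓ (homogeneousSubmodule (Fin n) k d).map T = (gr (quo J l) d).map T := by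
    ext f
    constructor
    · rintro ⟨⟨hf1, _⟩, g, hg, rfl⟩
      refine ⟨g, ⟨?_, hg⟩, rfl⟩
      rw [hTa] at hf1
      exact hf1
    · rintro ⟨g, ⟨hg1, hg2⟩, rfl⟩
      refine ⟨⟨?_, ?_⟩, g, hg2, rfl⟩
      · rw [hTa]
        exact hg1
      · rw [hTa, add_comm d 1]
        exact hl.mul hg2
  have h3 := Submodule.finrank_sup_add_finrank_inf_eq (gr J (d + 1)) ((homogeneousSubmodule (Fin n) k d).map T)
  have h4 : ∀ V : Submodule k (MvPolynomial (Fin n) k), Module.finrank k (V.map T) = Module.finrank k V := fun V =>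
    (LinearEquiv.finrank_eq (Submodule.equivMapOfInjective T hTi V)).symm
  rw [← h1, h2, h4, h4] at h3
  exact h3

end Q282DT
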