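import Pool.Agent.Q282.DT.Geo

/-!
# The lower bound of the Hilbert function
-/

set_option autoImplicit false
set_option linter.unusedSectionVars false

namespace Q282DT

open MvPolynomial

lemma succ_le {x : WithBot ℕ∞} {D : ℕ} (h : (D : WithBot ℕ∞) < x) : ((D + 1 : ℕ) : WithBot ℕ∞) ≤ x := by
  induction x with
  | bot => exact absurd h (by simp)
  | coe x =>
    have h1 : ((D : ℕ∞) : WithBot ℕ∞) < (x : WithBot ℕ∞) := h
    rw [WithBot.coe_lt_coe] at h1
    have h2 : ((D + 1 : ℕ) : ℕ∞) ≤ x := by
      rw [Nat.cast_add, Nat.cast_one]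
      exact Order.add_one_le_of_lt h1
    have h3 : (((D + 1 : ℕ) : ℕ∞) : WithBot ℕ∞) ≤ (x : WithBot ℕ∞) := WithBot.coe_le_coe.2 h2
    exact h3

section

variable {k : Type} [Field k] {n : ℕ}

/-- two sections do not become comparable -/
theorem cut_inc {a b q : Ideal (MvPolynomial (Fin n) k)} (hb : b.IsPrime) (hq : q.IsPrime) (hab : ¬ a ≤ b)
    (haq : a ≤ q) (hbq : b ≤ q) (l : MvPolynomial (Fin n) k) (hlq : l ∈ q)
    (hl : ∀ c ∈ (a ⊔ b).minimalPrimes, (∃ x, (X x : MvPolynomial (Fin n) k) ∉ c) → l ∉ c) (D : ℕ) (hD : 1 ≤ D)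
    (hbd : ringKrullDim (MvPolynomial (Fin n) k ⧸ b) = ((D + 1 : ℕ) : WithBot ℕ∞))
    (hqd : ringKrullDim (MvPolynomial (Fin n) k ⧸ q) = (D : WithBot ℕ∞)) : False := by
  obtain ⟨c, hc, hcq⟩ := Ideal.exists_minimalPrimes_le (sup_le haq hbq)
  have hbc : b < c := by
    refine lt_of_le_of_ne (le_sup_right.trans hc.1.2) fun h => hab ?_
    rw [h]
    exact le_sup_left.trans hc.1.2
  have h1 := dim_lt hb hbc
  rw [hbd] at h1
  have h2 : ringKrullDim (MvPolynomial (Fin n) k ⧸ c) ≤ (D : WithBot ℕ∞) := by
    by_contra h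
    push Not at h
    have h3 : ((D + 1 : ℕ) : WithBot ℕ∞) ≤ ringKrullDim (MvPolynomial (Fin n) k ⧸ c) := succ_le h
    have h4 : ((D + 1 : ℕ) : WithBot ℕ∞) + 1 ≤ ((D + 1 : ℕ) : WithBot ℕ∞) := (add_le_add_left h3 1).trans h1
    have h5 : ((D + 1 + 1 : ℕ) : WithBot ℕ∞) ≤ ((D + 1 : ℕ) : WithBot ℕ∞) := by
      rw [Nat.cast_add (D + 1) 1, Nat.cast_one]
      exact h4
    have h6 : D + 1 + 1 ≤ D + 1 := by exact_mod_cast h5
    omega
  by_cases hx : ∃ x, (X x : MvPolynomial (Fin n) k) ∉ c
  · have h3 : c < q := lt_of_le_of_ne hcq fun h => hl c hc hx (by rw [h]; exact hlq)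
    have h4 := dim_lt hc.1.1 h3
    rw [hqd] at h4
    have h5 : ((D + 1 : ℕ) : WithBot ℕ∞) ≤ (D : WithBot ℕ∞) := by
      rw [Nat.cast_add, Nat.cast_one]
      exact h4.trans h2
    have h6 : D + 1 ≤ D := by exact_mod_cast h5
    omega
  · push Not at hx
    have h3 := dim_zero hq fun x => hcq (hx x)
    rw [hqd] at h3
    have h4 : D = 0 := by exact_mod_cast h3
    omega

variable {ι : Type} [DecidableEq ι]

theorem choose_l [Infinite k] (p : ι → Ideal (MvPolynomial (Fin n) k)) (W : Submodule k (MvPolynomial (Fin n) k)) (s s' : Finset ι)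
    (h0 : ∃ w ∈ W, w ≠ 0) (h1 : ∀ i ∈ s', ∃ w ∈ W, w ∉ p i)
    (h2 : ∀ i ∈ s, ∀ j ∈ s, i ≠ j → ∀ a ∈ (p i ⊔ p j).minimalPrimes, (∃ x, (X x : MvPolynomial (Fin n) k) ∉ a) → ∃ w ∈ W, w ∉ a) :
    ∃ l ∈ W, l ≠ 0 ∧ (∀ i ∈ s', l ∉ p i) ∧ ∀ i ∈ s, ∀ j ∈ s, i ≠ j → ∀ a ∈ (p i ⊔ p j).minimalPrimes,
      (∃ x, (X x : MvPolynomial (Fin n) k) ∉ a) → l ∉ a := by
  classical
  have hfin : ∀ i j, (p i ⊔ p j).minimalPrimes.Finite := fun i j => Ideal.finite_minimalPrimes_of_isNoetherianRing _ _
  obtain ⟨T, hT⟩ : ∃ T : Finset (Ideal (MvPolynomial (Fin n) k)), T = {⊥} ∪ s'.image p ∪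
      s.biUnion fun i => (s.filter fun j => i ≠ j).biUnion fun j =>
        (hfin i j).toFinset.filter fun a => ∃ x, (X x : MvPolynomial (Fin n) k) ∉ a := ⟨_, rfl⟩
  obtain ⟨l, hl, hlT⟩ := avoid W T (by
    intro a ha
    rw [hT, Finset.mem_union, Finset.mem_union, Finset.mem_singleton, Finset.mem_image] at ha
    rcases ha with (ha | ⟨i, hi, rfl⟩) | ha
    · obtain ⟨w, hw, hw0⟩ := h0
      exact ⟨w, hw, by rw [ha]; simpa using hw0⟩
    · exact h1 i hi
    · rw [Finset.mem_biUnion] at ha
      obtain ⟨i, hi, ha⟩ := ha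
      rw [Finset.mem_biUnion] at ha
      obtain ⟨j, hj, ha⟩ := ha
      rw [Finset.mem_filter] at hj
      rw [Finset.mem_filter, Set.Finite.mem_toFinset] at ha
      exact h2 i hi j hj.1 hj.2 a ha.1 ha.2)
  refine ⟨l, hl, ?_, ?_, ?_⟩
  · have h3 := hlT ⊥ (by
      rw [hT, Finset.mem_union, Finset.mem_union, Finset.mem_singleton]
      exact Or.inl (Or.inl rfl))
    simpa using h3
  · intro i hi
    exact hlT _ (by
      rw [hT, Finset.mem_union, Finset.mem_union, Finset.mem_image]
      exact Or.inl (Or.inr ⟨i, hi, rfl⟩))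
  · intro i hi j hj hij a ha hx
    exact hlT _ (by
      rw [hT, Finset.mem_union]
      right
      rw [Finset.mem_biUnion]
      refine ⟨i, hi, ?_⟩
      rw [Finset.mem_biUnion]
      refine ⟨j, Finset.mem_filter.2 ⟨hj, hij⟩, ?_⟩
      rw [Finset.mem_filter, Set.Finite.mem_toFinset]
      exact ⟨ha, hx⟩)

/-- incomparable homogeneous primes above `J`, `b_j` of them of dimension `j + 1` -/
structure Fam (J : Ideal (MvPolynomial (Fin n) k)) (s : Finset ι) (p : ι → Ideal (MvPolynomial (Fin n) k)) (δ : ι → ℕ) (b : List ℕ) : Prop where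
  hom : Hom J
  prime : ∀ i ∈ s, (p i).IsPrime
  homp : ∀ i ∈ s, Hom (p i)
  le : ∀ i ∈ s, J ≤ p i
  dim : ∀ i ∈ s, ringKrullDim (MvPolynomial (Fin n) k ⧸ p i) = (δ i : WithBot ℕ∞)
  pos : ∀ i ∈ s, 1 ≤ δ i
  inc : ∀ i ∈ s, ∀ j ∈ s, p i ≤ p j → i = j
  cnt : ∀ j, b.getD j 0 = (s.filter fun i => δ i = j + 1).card

lemma Fam.var {J : Ideal (MvPolynomial (Fin n) k)} {s : Finset ι} {p : ι → Ideal (MvPolynomial (Fin n) k)} {δ : ι → ℕ} {b : List ℕ}
    (h : Fam J s p δ b) {i : ι} (hi : i ∈ s) : ∃ x, (X x : MvPolynomial (Fin n) k) ∉ p i := by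
  by_contra hcon
  push Not at hcon
  have h1 := dim_zero (h.prime i hi) hcon
  rw [h.dim i hi] at h1
  have h2 : δ i = 0 := by exact_mod_cast h1
  have := h.pos i hi
  omega

lemma sum_zero : ∀ b : List ℕ, (∀ j, b.getD j 0 = 0) → b.sum = 0
  | [], _ => rfl
  | (a :: t), h => by
    rw [List.sum_cons]
    have h1 := h 0
    have h2 := sum_zero t fun j => h (j + 1)
    rw [List.getD_cons_zero] at h1
    omega

end

section

variable {k : Type} [Field k] [IsAlgClosed k] {n : ℕ} {ι : Type} [DecidableEq ι]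

/-- the choices at a point -/
theorem at_point (hn : 2 ≤ n) {J : Ideal (MvPolynomial (Fin n) k)} {s : Finset ι} {p : ι → Ideal (MvPolynomial (Fin n) k)} {δ : ι → ℕ}
    {b : List ℕ} (h : Fam J s p δ b) (i₀ : ι) (hi₀ : i₀ ∈ s) (hδ : δ i₀ = 1) :
    ∃ l ∈ p i₀, l.IsHomogeneous 1 ∧ l ≠ 0 ∧ (∀ i ∈ s.erase i₀, l ∉ p i) ∧ ∀ i ∈ s, ∀ j ∈ s, i ≠ j → ∀ a ∈ (p i ⊔ p j).minimalPrimes,
      (∃ x, (X x : MvPolynomial (Fin n) k) ∉ a) → l ∉ a := by
  have hinf : Infinite k := IsAlgClosed.instInfinite
  have hd : ringKrullDim (MvPolynomial (Fin n) k ⧸ p i₀) = 1 := by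
    rw [h.dim i₀ hi₀, hδ]
    rfl
  have hpt : ∀ a : Ideal (MvPolynomial (Fin n) k), a.IsPrime → Hom a → (∃ x, (X x : MvPolynomial (Fin n) k) ∉ a) →
      (∀ w ∈ gr (p i₀) 1, w ∈ a) → a = p i₀ := fun a ha hah hx hw =>
    point (h.prime i₀ hi₀) (h.homp i₀ hi₀) hd ha hah hx fun l hl hl1 => hw l ⟨hl, hl1⟩
  obtain ⟨l, hlW, hl0, hl1, hl2⟩ := choose_l p (gr (p i₀) 1) s (s.erase i₀) (by
    by_contra hcon
    push Not at hcon
    have hn0 : 0 < n := by omega
    have h1 := hpt ⊥ Ideal.isPrime_bot (fun f hf t => by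
      rw [Ideal.mem_bot] at hf
      rw [hf, map_zero]
      exact Ideal.zero_mem _) ⟨⟨0, hn0⟩, by
        rw [Ideal.mem_bot]
        exact X_ne_zero _⟩ (fun w hw => by
        rw [hcon w hw]
        exact Ideal.zero_mem _)
    rw [← h1] at hd
    have h2 : ringKrullDim (MvPolynomial (Fin n) k ⧸ (⊥ : Ideal (MvPolynomial (Fin n) k))) = (n : WithBot ℕ∞) := by
      rw [ringKrullDim_eq_of_ringEquiv (RingEquiv.quotientBot _), MvPolynomial.ringKrullDim_of_isNoetherianRing,
        ringKrullDim_eq_zero_of_field, zero_add]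
      simp
    rw [h2] at hd
    have h3 : n = 1 := by exact_mod_cast hd
    omega) (by
    intro i hi
    rw [Finset.mem_erase] at hi
    by_contra hcon
    push Not at hcon
    have h1 := hpt (p i) (h.prime i hi.2) (h.homp i hi.2) (h.var hi.2) hcon
    exact hi.1 (h.inc i hi.2 i₀ hi₀ h1.le)) (by
    intro i hi j hj hij a ha hx
    by_contra hcon
    push Not at hcon
    have h1 := hpt a ha.1.1 (hom_minimal (hom_sup (h.homp i hi) (h.homp j hj)) ha) hx hcon
    rw [h1] at ha
    apply hij
    rw [h.inc i hi i₀ hi₀ (le_sup_left.trans ha.1.2), h.inc j hj i₀ hi₀ (le_sup_right.trans ha.1.2)])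
  exact ⟨l, hlW.1, hlW.2, hl0, hl1, hl2⟩

/-- **The lower bound of the Hilbert function.** -/
theorem main (hC : S_Cut) (hn : 2 ≤ n) : ∀ (b : List ℕ) (d : ℕ) (J : Ideal (MvPolynomial (Fin n) k)) (s : Finset ι)
    (p : ι → Ideal (MvPolynomial (Fin n) k)) (δ : ι → ℕ), Fam J s p δ b → L b d + Dm J d ≤ N k n d
  | [], d, J, s, p, δ, _ => by
    rw [L, zero_add]
    exact Dm_le J d
  | (b :: t), 0, J, s, p, δ, h => by
    rw [L]
    split_ifs with h0
    · rw [zero_add]
      exact Dm_le J 0
    · have h1 : s.Nonempty := by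
        by_contra hs
        rw [Finset.not_nonempty_iff_eq_empty] at hs
        apply h0
        apply sum_zero
        intro j
        rw [h.cnt j, hs]
        rfl
      obtain ⟨i, hi⟩ := h1
      rw [add_comm]
      refine Dm_lt J 0 1 (isHomogeneous_one _ _) fun h2 => (h.prime i hi).ne_top ?_
      rw [Ideal.eq_top_iff_one]
      exact h.le i hi h2
  | (0 :: t), (d + 1), J, s, p, δ, h => by
    have hinf : Infinite k := IsAlgClosed.instInfinite
    have h2δ : ∀ i ∈ s, 2 ≤ δ i := by
      intro i hi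
      have h1 := h.pos i hi
      rcases Nat.lt_or_ge (δ i) 2 with h2 | h2
      · exfalso
        have h3 := h.cnt 0
        rw [List.getD_cons_zero] at h3
        have h4 : i ∈ s.filter fun i => δ i = 0 + 1 := Finset.mem_filter.2 ⟨hi, by omega⟩
        rw [Finset.card_eq_zero.1 h3.symm] at h4
        exact absurd h4 (Finset.notMem_empty _)
      · exact h2
    have hn0 : 0 < n := by omega
    have hX : ∀ x, (X x : MvPolynomial (Fin n) k) ∈ homogeneousSubmodule (Fin n) k 1 := fun x => isHomogeneous_X _ _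
    obtain ⟨l, hlW, hl0, hl1, hl2⟩ := choose_l p (homogeneousSubmodule (Fin n) k 1) s s ⟨X ⟨0, hn0⟩, hX _, X_ne_zero _⟩
      (fun i hi => by
        obtain ⟨x, hx⟩ := h.var hi
        exact ⟨X x, hX x, hx⟩)
      (fun i _ j _ _ a _ hx => by
        obtain ⟨x, hx⟩ := hx
        exact ⟨X x, hX x, hx⟩)
    have hcut : ∀ i, ∃ p' : Ideal (MvPolynomial (Fin n) k), i ∈ s → p'.IsPrime ∧ Hom p' ∧ p i ≤ p' ∧ l ∈ p' ∧
        ringKrullDim (MvPolynomial (Fin n) k ⧸ p') = ((δ i - 1 : ℕ) : WithBot ℕ∞) := by
      intro i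
      by_cases hi : i ∈ s
      · obtain ⟨p', h1⟩ := hC k n (p i) (h.prime i hi) (h.homp i hi) l hlW (hl1 i hi) (δ i - 1) (by
          rw [h.dim i hi, Nat.sub_add_cancel (h.pos i hi)])
        exact ⟨p', fun _ => h1⟩
      · exact ⟨⊥, fun h => absurd h hi⟩
    choose p' hp' using hcut
    have ih1 := main hC hn (0 :: t) d (quo J l) s p δ
      { hom := hom_quo h.hom l hlW
        prime := h.prime
        homp := h.homp
        le := fun i hi f hf => ((h.prime i hi).mem_or_mem (h.le i hi hf)).resolve_left (hl1 i hi)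
        dim := h.dim
        pos := h.pos
        inc := h.inc
        cnt := h.cnt }
    have ih2 := main hC hn t (d + 1) (J ⊔ Ideal.span {l}) s p' (fun i => δ i - 1)
      { hom := hom_sup h.hom (hom_span hlW)
        prime := fun i hi => (hp' i hi).1
        homp := fun i hi => (hp' i hi).2.1
        le := fun i hi => sup_le ((h.le i hi).trans (hp' i hi).2.2.1) (by
          rw [Ideal.span_singleton_le_iff_mem]
          exact (hp' i hi).2.2.2.1)
        dim := fun i hi => (hp' i hi).2.2.2.2
        pos := fun i hi => by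
          have := h2δ i hi
          omega
        inc := fun i hi j hj hij => by
          by_contra hne
          have h1 := h2δ j hj
          refine cut_inc (h.prime j hj) (hp' j hj).1 (fun hle => hne (h.inc i hi j hj hle)) ((hp' i hi).2.2.1.trans hij) (hp' j hj).2.2.1 l
            (hp' j hj).2.2.2.1 (hl2 i hi j hj hne) (δ j - 1) (by omega) ?_ (hp' j hj).2.2.2.2
          rw [h.dim j hj, Nat.sub_add_cancel (h.pos j hj)]
        cnt := fun j => by
          have h1 := h.cnt (j + 1)
          rw [List.getD_cons_succ] at h1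
          rw [h1]
          congr 1
          ext i
          simp only [Finset.mem_filter]
          refine and_congr_right fun hi => ?_
          have := h2δ i hi
          omega }
    have h3 := section_eq h.hom l hlW hl0 d
    rw [L]
    omega
  | ((c + 1) :: []), (d + 1), J, s, p, δ, h => by
    have h1 : (s.filter fun i => δ i = 0 + 1).Nonempty := by
      rw [← Finset.card_pos, ← h.cnt 0, List.getD_cons_zero]
      omega
    obtain ⟨i₀, hi₀⟩ := h1
    rw [Finset.mem_filter] at hi₀
    obtain ⟨l, hlp, hlh, hl0, hl1, hl2⟩ := at_point hn h i₀ hi₀.1 hi₀.2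
    have ih1 := main hC hn [c] d (quo J l) (s.erase i₀) p δ
      { hom := hom_quo h.hom l hlh
        prime := fun i hi => h.prime i (Finset.mem_of_mem_erase hi)
        homp := fun i hi => h.homp i (Finset.mem_of_mem_erase hi)
        le := fun i hi f hf => ((h.prime i (Finset.mem_of_mem_erase hi)).mem_or_mem (h.le i (Finset.mem_of_mem_erase hi) hf)).resolve_left (hl1 i hi)
        dim := fun i hi => h.dim i (Finset.mem_of_mem_erase hi)
        pos := fun i hi => h.pos i (Finset.mem_of_mem_erase hi)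
        inc := fun i hi j hj => h.inc i (Finset.mem_of_mem_erase hi) j (Finset.mem_of_mem_erase hj)
        cnt := fun j => by
          rcases j with _ | j
          · have h2 := h.cnt 0
            rw [List.getD_cons_zero] at h2 ⊢
            rw [Finset.filter_erase, Finset.card_erase_of_mem (Finset.mem_filter.2 hi₀), ← h2, Nat.add_sub_cancel]
          · have h2 := h.cnt (j + 1)
            rw [List.getD_cons_succ] at h2 ⊢
            rw [h2, Finset.filter_erase, Finset.erase_eq_of_notMem]
            rw [Finset.mem_filter]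
            have := hi₀.2
            rintro ⟨_, h3⟩
            omega }
    obtain ⟨x, hx⟩ := h.var hi₀.1
    have h3 := section_eq h.hom l hlh hl0 d
    have h4 := Dm_lt (J ⊔ Ideal.span {l}) (d + 1) (X x ^ (d + 1)) (by
      have h5 := (isHomogeneous_X k x).pow (d + 1)
      rwa [one_mul] at h5) (fun h5 => hx ((h.prime i₀ hi₀.1).mem_of_pow_mem _ (sup_le (h.le i₀ hi₀.1) (by
        rw [Ideal.span_singleton_le_iff_mem]
        exact hlp) h5)))
    rw [L]
    omega
  | ((c + 1) :: e :: u), (d + 1), J, s, p, δ, h => by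
    have h1 : (s.filter fun i => δ i = 0 + 1).Nonempty := by
      rw [← Finset.card_pos, ← h.cnt 0, List.getD_cons_zero]
      omega
    obtain ⟨i₀, hi₀⟩ := h1
    rw [Finset.mem_filter] at hi₀
    have hδ₀ : δ i₀ = 1 := hi₀.2
    obtain ⟨l, hlp, hlh, hl0, hl1, hl2⟩ := at_point hn h i₀ hi₀.1 hi₀.2
    have hinf : Infinite k := IsAlgClosed.instInfinite
    have hcut : ∀ i, ∃ p' : Ideal (MvPolynomial (Fin n) k), (i ∈ s ∧ i ≠ i₀) → p'.IsPrime ∧ Hom p' ∧ p i ≤ p' ∧ l ∈ p' ∧
        ringKrullDim (MvPolynomial (Fin n) k ⧸ p') = ((δ i - 1 : ℕ) : WithBot ℕ∞) := by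
      intro i
      by_cases hi : i ∈ s ∧ i ≠ i₀
      · obtain ⟨p', h1⟩ := hC k n (p i) (h.prime i hi.1) (h.homp i hi.1) l hlh (hl1 i (Finset.mem_erase.2 ⟨hi.2, hi.1⟩)) (δ i - 1) (by
          rw [h.dim i hi.1, Nat.sub_add_cancel (h.pos i hi.1)])
        exact ⟨p', fun _ => h1⟩
      · exact ⟨⊥, fun h => absurd h hi⟩
    choose p' hp' using hcut
    have ih1 := main hC hn (c :: e :: u) d (quo J l) (s.erase i₀) p δ
      { hom := hom_quo h.hom l hlh
        prime := fun i hi => h.prime i (Finset.mem_of_mem_erase hi)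
        homp := fun i hi => h.homp i (Finset.mem_of_mem_erase hi)
        le := fun i hi f hf => ((h.prime i (Finset.mem_of_mem_erase hi)).mem_or_mem (h.le i (Finset.mem_of_mem_erase hi) hf)).resolve_left (hl1 i hi)
        dim := fun i hi => h.dim i (Finset.mem_of_mem_erase hi)
        pos := fun i hi => h.pos i (Finset.mem_of_mem_erase hi)
        inc := fun i hi j hj => h.inc i (Finset.mem_of_mem_erase hi) j (Finset.mem_of_mem_erase hj)
        cnt := fun j => by
          rcases j with _ | j
          · have h2 := h.cnt 0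
            rw [List.getD_cons_zero] at h2 ⊢
            rw [Finset.filter_erase, Finset.card_erase_of_mem (Finset.mem_filter.2 hi₀), ← h2, Nat.add_sub_cancel]
          · have h2 := h.cnt (j + 1)
            rw [List.getD_cons_succ] at h2 ⊢
            rw [h2, Finset.filter_erase, Finset.erase_eq_of_notMem]
            rw [Finset.mem_filter]
            rintro ⟨_, h3⟩
            omega }
    obtain ⟨s', hs'⟩ : ∃ s' : Finset ι, s' = s.filter fun i => i = i₀ ∨ 2 ≤ δ i := ⟨_, rfl⟩
    have hmem : ∀ i, i ∈ s' ↔ i ∈ s ∧ (i = i₀ ∨ 2 ≤ δ i) := by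
      intro i
      rw [hs', Finset.mem_filter]
    have ih2 := main hC hn ((e + 1) :: u) (d + 1) (J ⊔ Ideal.span {l}) s' (fun i => if i = i₀ then p i₀ else p' i)
        (fun i => if i = i₀ then 1 else δ i - 1)
      { hom := hom_sup h.hom (hom_span hlh)
        prime := fun i hi => by
          by_cases hi2 : i = i₀
          · simp only [if_pos hi2]
            exact h.prime i₀ hi₀.1
          · simp only [if_neg hi2]
            exact (hp' i ⟨((hmem i).1 hi).1, hi2⟩).1
        homp := fun i hi => by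
          by_cases hi2 : i = i₀
          · simp only [if_pos hi2]
            exact h.homp i₀ hi₀.1
          · simp only [if_neg hi2]
            exact (hp' i ⟨((hmem i).1 hi).1, hi2⟩).2.1
        le := fun i hi => by
          by_cases hi2 : i = i₀
          · simp only [if_pos hi2]
            refine sup_le (h.le i₀ hi₀.1) ?_
            rw [Ideal.span_singleton_le_iff_mem]
            exact hlp
          · simp only [if_neg hi2]
            refine sup_le ((h.le i ((hmem i).1 hi).1).trans (hp' i ⟨((hmem i).1 hi).1, hi2⟩).2.2.1) ?_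
            rw [Ideal.span_singleton_le_iff_mem]
            exact (hp' i ⟨((hmem i).1 hi).1, hi2⟩).2.2.2.1
        dim := fun i hi => by
          by_cases hi2 : i = i₀
          · have e1 : (if i = i₀ then p i₀ else p' i) = p i₀ := if_pos hi2
            have e2 : (if i = i₀ then 1 else δ i - 1) = 1 := if_pos hi2
            show ringKrullDim (MvPolynomial (Fin n) k ⧸ (if i = i₀ then p i₀ else p' i)) = ((if i = i₀ then 1 else δ i - 1 : ℕ) : WithBot ℕ∞)
            rw [e1, e2, h.dim i₀ hi₀.1, hδ₀]
          · have e1 : (if i = i₀ then p i₀ else p' i) = p' i := if_neg hi2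
            have e2 : (if i = i₀ then 1 else δ i - 1) = δ i - 1 := if_neg hi2
            show ringKrullDim (MvPolynomial (Fin n) k ⧸ (if i = i₀ then p i₀ else p' i)) = ((if i = i₀ then 1 else δ i - 1 : ℕ) : WithBot ℕ∞)
            rw [e1, e2]
            exact (hp' i ⟨((hmem i).1 hi).1, hi2⟩).2.2.2.2
        pos := fun i hi => by
          by_cases hi2 : i = i₀
          · simp only [if_pos hi2]
            exact le_rfl
          · simp only [if_neg hi2]
            have := ((hmem i).1 hi).2.resolve_left hi2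
            omega
        inc := fun i hi j hj hij => by
          obtain ⟨his, hi3⟩ := (hmem i).1 hi
          obtain ⟨hjs, hj3⟩ := (hmem j).1 hj
          by_cases hi2 : i = i₀
          · by_cases hj2 : j = i₀
            · rw [hi2, hj2]
            · exfalso
              simp only [if_pos hi2, if_neg hj2] at hij
              -- the point is contained in a section
              have h5 : p j ≤ p' j := (hp' j ⟨hjs, hj2⟩).2.2.1
              have h6 := hj3.resolve_left hj2
              have h7 : p i₀ = p' j := by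
                by_contra hne
                have h8 := dim_lt (h.prime i₀ hi₀.1) (lt_of_le_of_ne hij hne)
                rw [(hp' j ⟨hjs, hj2⟩).2.2.2.2, h.dim i₀ hi₀.1, hδ₀] at h8
                have h9 : ((δ j - 1 + 1 : ℕ) : WithBot ℕ∞) ≤ ((1 : ℕ) : WithBot ℕ∞) := by
                  rw [Nat.cast_add (δ j - 1) 1, Nat.cast_one]
                  exact h8
                have h10 : δ j - 1 + 1 ≤ 1 := by exact_mod_cast h9
                omega
              rw [← h7] at h5
              exact hj2 (h.inc j hjs i₀ hi₀.1 h5)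
          · have h5 : p i ≤ p' i := (hp' i ⟨his, hi2⟩).2.2.1
            by_cases hj2 : j = i₀
            · exfalso
              simp only [if_neg hi2, if_pos hj2] at hij
              exact hi2 (h.inc i his i₀ hi₀.1 (h5.trans hij))
            · simp only [if_neg hi2, if_neg hj2] at hij
              by_contra hne
              have h6 := hj3.resolve_left hj2
              have hpj := hp' j ⟨hjs, hj2⟩
              refine cut_inc (h.prime j hjs) hpj.1 (fun hle => hne (h.inc i his j hjs hle)) (h5.trans hij) hpj.2.2.1 l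
                hpj.2.2.2.1 (hl2 i his j hjs hne) (δ j - 1) (by omega) ?_ hpj.2.2.2.2
              rw [h.dim j hjs, Nat.sub_add_cancel (h.pos j hjs)]
        cnt := fun j => by
          rcases j with _ | j
          · have h2 := h.cnt 1
            rw [List.getD_cons_succ, List.getD_cons_zero] at h2
            rw [List.getD_cons_zero, h2]
            have h5 : (s'.filter fun i => (if i = i₀ then 1 else δ i - 1) = 0 + 1) = insert i₀ (s.filter fun i => δ i = 1 + 1) := by
              ext i
              rw [Finset.mem_filter, Finset.mem_insert, Finset.mem_filter, hmem]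
              by_cases hi2 : i = i₀
              · subst hi2
                simp [hi₀.1]
              · rw [if_neg hi2]
                constructor
                · rintro ⟨⟨h6, h7⟩, h8⟩
                  have := h7.resolve_left hi2
                  exact Or.inr ⟨h6, by omega⟩
                · rintro (h6 | ⟨h6, h7⟩)
                  · exact absurd h6 hi2
                  · exact ⟨⟨h6, Or.inr (by omega)⟩, by omega⟩
            rw [h5, Finset.card_insert_of_notMem]
            rw [Finset.mem_filter]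
            rintro ⟨_, h6⟩
            omega
          · have h2 := h.cnt (j + 2)
            rw [List.getD_cons_succ, List.getD_cons_succ] at h2
            rw [List.getD_cons_succ, h2]
            congr 1
            ext i
            rw [Finset.mem_filter, Finset.mem_filter, hmem]
            by_cases hi2 : i = i₀
            · subst hi2
              rw [if_pos rfl]
              constructor
              · rintro ⟨_, h6⟩
                omega
              · rintro ⟨_, h6⟩
                omega
            · rw [if_neg hi2]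
              constructor
              · rintro ⟨h6, h7⟩
                exact ⟨⟨h6, Or.inr (by omega)⟩, by omega⟩
              · rintro ⟨⟨h6, h7⟩, h8⟩
                exact ⟨h6, by omega⟩ }
    have h3 := section_eq h.hom l hlh hl0 d
    rw [L]
    omega
termination_by b d => (b.length, d)

end

end Q282DT
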