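import Mathlib.RingTheory.MvPolynomial.Homogeneous
import Mathlib.RingTheory.KrullDimension.Polynomial
import Mathlib.RingTheory.Ideal.MinimalPrime.Basic
import Mathlib.RingTheory.Ideal.GoingUp
import Mathlib.RingTheory.GradedAlgebra.Radical
import Mathlib.RingTheory.Nullstellensatz
import Mathlib.RingTheory.MvPolynomial.WeightedHomogeneous
import Mathlib.GroupTheory.CosetCover
import Mathlib.Order.PiLex

/-!
# Boguslavsky's conjecture on dim-types (MP_a68a03_ag): definitions and lemma jobs

Project DT of helper282: a full affirmative answer. Over a field with more than `d` elements the largest dim-type (in the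
lexicographic order) of the common zeros of `r` independent forms of degree `d` in `m + 1` variables is given by the exponents of
the `r`-th monomial of degree `d`.
-/

set_option autoImplicit false
set_option linter.unusedSectionVars false

namespace Q282DT

open MvPolynomial

/-- the number of the irreducible components of codimension `i + 1` of the zero locus in projective space -/
noncomputable def dimType {F : Type} [Field F] {m r : ℕ} (f : Fin r → MvPolynomial (Fin (m + 1)) F) (i : Fin m) : ℕ :=
  Set.ncard {p : Ideal (MvPolynomial (Fin (m + 1)) F) | p ∈ (Ideal.span (Set.range f)).minimalPrimes ∧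
    ringKrullDim (MvPolynomial (Fin (m + 1)) F ⧸ p) = ((m - i : ℕ) : WithBot ℕ∞)}

/-- the lower bound of the Hilbert function in degree `d` of a scheme with `b_δ` components of dimension `δ` (as cones), for the
list `b_1, b_2, ...` -/
def L : List ℕ → ℕ → ℕ
  | [], _ => 0
  | (b :: t), 0 => if (b :: t).sum = 0 then 0 else 1
  | (0 :: t), (d + 1) => L (0 :: t) d + L t (d + 1)
  | ((s + 1) :: []), (d + 1) => L [s] d + 1
  | ((s + 1) :: c :: u), (d + 1) => L (s :: c :: u) d + L ((c + 1) :: u) (d + 1)
termination_by l d => (l.length, d)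

/-- **JOB DT-COMB.** The bound `L` counts monomials: for `β : Fin m → ℕ` the number of the monomials of degree `d` in `m + 1`
variables whose exponents in the first `m` variables are lexicographically smaller than `β` is at most (in fact equal to)
`L [β (m-1), ..., β 0] d`.

Proof, induction on `m` and then on `d`. Write `K m β d` for the left side.
* `m = 0`: the set is empty. `d = 0`: only `a = 0`; it is counted if and only if `β ≠ 0` (i.e. the sum of the list is not `0`).
* Step `d + 1`. The monomials with `a_m ≥ 1` are in bijection with the monomials of degree `d` (decrease `a_m`), so they contribute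
  `K m β d`. The monomials with `a_m = 0` are the `(a_0, ..., a_{m-1})` with sum `d + 1` and `(a_0, ..., a_{m-1}) <_lex β`; let their
  number be `E`.
* If `β (m-1) = 0`: the last coordinate cannot decide, so `E = K (m-1) (β 0, ..., β (m-2)) (d+1)`; and `L (0 :: t) (d+1) = L (0 :: t) d + L t (d+1)`.
* If `β (m-1) = s + 1` and `m = 1`: `K 1 β (d+1) = #{a_0 ≤ s, a_0 ≤ d + 1} = min (s+1) (d+2) = K 1 (s) d + 1`.
* If `β (m-1) = s + 1`, `m ≥ 2`, `c = β (m-2)`: compare with `K m β' d + K (m-1) β'' (d+1)`, where `β'` is `β` with the last entry `s` and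
  `β'' = (β 0, ..., β (m-3), c + 1)`. Let `P` be the set of the `a` with `(a_0, ..., a_{m-2}) = (β 0, ..., β (m-2))`, and
  `σ = β 0 + ... + β (m-2)`. Then `K m β d - K m β' d = #{a ∈ P, |a| = d, a_{m-1} = s}`, which is `1` if `σ + s ≤ d` and `0` otherwise, and
  `(a_0, ..., a_{m-2}) <_lex β''` iff `(a_0, ..., a_{m-2}) ≤_lex (β 0, ..., β (m-2))`, so
  `K (m-1) β'' (d+1) - E = #{(a_0, ..., a_{m-1}) ∈ P, sum d + 1, a_{m-1} ≥ s + 1}`, which is `1` if `d + 1 - σ ≥ s + 1` and `0`
  otherwise: the same. So `K m β (d+1) = K m β d + E = K m β' d + K (m-1) β'' (d+1)`.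
(Only `≤` is needed: `K m β d ≤ K m β' d + [σ + s ≤ d]` and `E + [σ + s ≤ d] ≤ K (m-1) β'' (d+1)`, injections.) It may be convenient to
prove it for lists or for `Fin.snoc`, or to replace `toLex ... < toLex β` by `∃ i, (∀ j < i, a j = β j) ∧ a i < β i`. -/
def S_Comb : Prop := ∀ (m : ℕ) (β : Fin m → ℕ) (d : ℕ),
  Nat.card {a : Fin (m + 1) → ℕ // ∑ i, a i = d ∧ toLex (fun i : Fin m => a i.castSucc) < toLex β} ≤
    L (List.ofFn fun j : Fin m => β j.rev) d

/-- **JOB DT-EXI.** Existence: products of distinct linear forms (distraction of the lexicographic ideal).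

Proof. Let `c : Fin (d+1) → F` be injective, `S = F[x_0, ..., x_m]`, and for an exponent vector `a` of degree `d`
`D(a) = (∏_{i<m} ∏_{j<a_i} (x_i - c_j x_m)) * x_m ^ (a_m)`. Take for `f` the `D(a)` with `toLex ν ≤ toLex a` (`r` of them, `hr`).
1. `D(a)` is homogeneous of degree `∑ a_i = d`.
2. Independence: evaluate at the points `P_b = (c_{b_0}, ..., c_{b_{m-1}}, 1)`, `b_i ≤ d`: `D(a)(P_b) ≠ 0` iff `a_i ≤ b_i` for all `i < m`
   (`c` is injective). If `∑ λ_a D(a) = 0` is not trivial choose `a` with `λ_a ≠ 0` and `∑_{i<m} a_i` minimal and evaluate at `P_a`: only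
   `a' ≤ a` (coordinates `< m`) contribute, these have a smaller sum unless `a' = a` (the last coordinate is determined). So `λ_a = 0`.
3. For `i < m` and `k < ν_i` let `l_{i,k}` be the kernel of the homomorphism `S → F[x_j : i < j]` (or to `S` itself) with
   `x_j ↦ c_{ν_j} x_m` for `j < i`, `x_i ↦ c_k x_m`, `x_j ↦ x_j` for `j > i`. It is a prime ideal, generated by the `i + 1` linear forms
   `x_j - c_{ν_j} x_m (j < i)`, `x_i - c_k x_m`: for all `f`, `f - φ(f)` lies in the ideal generated by them (induction on `f`).
   `S / l_{i,k}` is a polynomial ring in `m - i` variables (`i+1, ..., m`), so it has Krull dimension `m - i`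
   (`MvPolynomial.ringKrullDim_of_isNoetherianRing`, `ringKrullDim_eq_zero_of_field`, `ringKrullDim_eq_of_ringEquiv`).
   (`ν_j ≤ d` for all `j`, so `c_{ν_j}` makes sense; `k < ν_i ≤ d`.)
4. `l_{i,k}` contains all `D(a)`, `a ≥_lex ν`: if `a_j > ν_j` for some `j < i` then `D(a)` has the factor `x_j - c_{ν_j} x_m`; otherwise
   `a_j = ν_j` for all `j < i` (lexicographic order) and `a_i ≥ ν_i > k`, and `D(a)` has the factor `x_i - c_k x_m`.
5. Every prime ideal `p` that contains all `D(a)`, `a ≥_lex ν`, contains some `l_{i,k}`, or all variables.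
   (a) `x_m ∉ p`. Then for each `i` there is at most one index `j ≤ d` with `x_i - c_j x_m ∈ p`. Let `e_i` be this index, `e_i = ∞` if
   there is none. Let `g` be the lexicographically largest exponent vector of degree `d` with `g_i ≤ e_i` for `i < m` (greedy:
   `g_i = min(e_i, d - g_0 - ... - g_{i-1})`, `g_m` = the rest). `D(g)` is not in `p` (no factor is), so not `g ≥ ν`, i.e. `g < ν`: for some
   `i < m`, `g_j = ν_j` for `j < i` and `g_i < ν_i` (`i = m` is impossible because of the equal sums). Then
   `g_i < ν_i ≤ d - ∑_{j<i} ν_j`, so `g_i = e_i` and, for `j < i`, `g_j = e_j` (otherwise `g_j` is the whole remainder and then `ν_i = 0`).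
   So `e_j = ν_j` for `j < i` and `e_i = k < ν_i`: `p ⊇ l_{i,k}`. (Direct version without `g`: let `i` be the least index such that
   not (`e_i = ν_i`); look at the vector `(ν_0, ..., ν_{i-1}, ...)`; if `e_i > ν_i` or `e_i = ∞` or no such `i` exists one finds
   `a ≥ ν` with `D(a) ∉ p`.)
   (b) `x_m ∈ p`. Then `x_i - c_j x_m ∈ p` iff `x_i ∈ p`. Assume not all variables are in `p`, and let `i₁` be the least `i` with
   `x_i ∉ p` (`i₁ < m`). The form `D(x_{i₁}^d)` is not in `p`, so `d e_{i₁} <_lex ν`, so `ν_i ≥ 1` for some `i < i₁`; for the least such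
   `i` the ideal `l_{i,0}` has the generators `x_j - c_0 x_m (j < i)`, `x_i - c_0 x_m`, all in `p`.
6. The `l_{i,k}` are pairwise incomparable: none contains `x_m`, and if one contains two of the forms `x_i - c x_m`, `x_i - c' x_m`,
   `c ≠ c'`, it contains `x_m`. So the minimal primes of `(f)` are the `l_{i,k}` (`i < m`, `k < ν_i`), or, if there are none
   (`ν = (0, ..., 0, d)`), only the ideal of all variables, for which the Krull dimension of the quotient is `0 ≠ m - i`. (Every minimal
   prime `p ⊇ l_{i,k}` is equal to it by 4; the ideal of all variables contains `l_{i,k}` if there is one.) Hence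
   `dimType f i = #{k < ν_i} = ν_i` (different `i` have different dimensions). -/
def S_Exi : Prop := ∀ (F : Type) [Field F] (m d : ℕ), 1 ≤ d → ∀ c : Fin (d + 1) → F, Function.Injective c →
  ∀ ν : Fin (m + 1) → ℕ, ∑ i, ν i = d → ∀ r : ℕ,
    r = Nat.card {a : Fin (m + 1) → ℕ // ∑ i, a i = d ∧ toLex ν ≤ toLex a} →
    ∃ f : Fin r → MvPolynomial (Fin (m + 1)) F, LinearIndependent F f ∧ (∀ j, (f j).IsHomogeneous d) ∧
      ∀ i : Fin m, dimType f i = ν i.castSucc

section

variable {k : Type} [Field k] {n : ℕ}

/-- homogeneous ideals -/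
def Hom (I : Ideal (MvPolynomial (Fin n) k)) : Prop := ∀ f ∈ I, ∀ t, homogeneousComponent t f ∈ I

attribute [local instance] MvPolynomial.gradedAlgebra

theorem hom_iff (I : Ideal (MvPolynomial (Fin n) k)) : Hom I ↔ I.IsHomogeneous (homogeneousSubmodule (Fin n) k) := by
  constructor
  · intro h t f hf
    have h1 := h f hf t
    rw [← decomposition.decompose'_apply] at h1
    exact h1
  · intro h f hf t
    exact homogeneousComponent_mem_of_mem h hf t

/-- the homogeneous core of a prime ideal is prime -/
theorem exists_core (q : Ideal (MvPolynomial (Fin n) k)) (hq : q.IsPrime) :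
    ∃ q' : Ideal (MvPolynomial (Fin n) k), q'.IsPrime ∧ Hom q' ∧ q' ≤ q ∧ (∀ I, Hom I → I ≤ q → I ≤ q') ∧
      ∀ f ∈ q, ∀ t, f.IsHomogeneous t → f ∈ q' := by
  refine ⟨(q.homogeneousCore (homogeneousSubmodule (Fin n) k)).toIdeal, hq.homogeneousCore, ?_, Ideal.toIdeal_homogeneousCore_le _ _, ?_, ?_⟩
  · rw [hom_iff]
    exact HomogeneousIdeal.isHomogeneous _
  · intro I hI hIq
    rw [hom_iff] at hI
    exact hI.toIdeal_homogeneousCore_eq_self.symm.trans_le (Ideal.homogeneousCore_mono _ hIq)
  · intro f hf t ht
    exact Ideal.mem_homogeneousCore_of_homogeneous_of_mem ⟨t, ht⟩ hf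

/-- the minimal primes of a homogeneous ideal are homogeneous -/
theorem hom_minimal {I p : Ideal (MvPolynomial (Fin n) k)} (hI : Hom I) (hp : p ∈ I.minimalPrimes) : Hom p := by
  obtain ⟨q, h1, h2, h3, h4, _⟩ := exists_core p hp.1.1
  have h5 : p ≤ q := hp.2 ⟨h1, h4 I hI hp.1.2⟩ h3
  rw [le_antisymm h5 h3]
  exact h2

end

/-- **JOB DT-CUT.** Hyperplane sections of homogeneous prime ideals over an infinite field.

Notation: `S = k[x_0, ..., x_{n-1}]`, `m` the ideal generated by the variables, `dim I = ringKrullDim (S / I)`. Proof.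
1. The minimal primes of a homogeneous ideal are homogeneous (`hom_minimal` above; see also `exists_core`). A homogeneous prime ideal that contains all variables is `m` (it is proper, and `m` is maximal); a homogeneous prime (proper)
   ideal is contained in `m` (its elements have constant term `0`). For primes `a < q` one has `dim q + 1 ≤ dim a` (all dimensions are
   finite, at most `n`: `MvPolynomial.ringKrullDim_of_isNoetherianRing`, `ringKrullDim_le_of_surjective`).
2. Lemma A. If `I ≤ m` is homogeneous and `dim I ≤ e` then there are linear forms `z_1, ..., z_e` (homogeneous of degree 1) such that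
   every prime ideal that contains `I` and all `z_i` is `m`. Induction on `e`. `e = 0`: such a prime contains a minimal prime `a`
   of `I`, `dim a ≤ 0`, so `a` is maximal (or: `a < m` would give `1 ≤ dim a`), so `a = m`. Step: choose a linear form `z` outside all the
   (finitely many, `Ideal.finite_minimalPrimes_of_isNoetherianRing` or similar) minimal primes of `I` that are different from
   `m`: each of them does not contain the space of linear forms, and a vector space over an infinite field is not a finite union of proper
   subspaces (`Subspace.top_mem_of_biUnion_eq_univ`, Mathlib.GroupTheory.CosetCover). A prime `q ⊇ I + (z)` contains a minimal prime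
   `a` of `I`; if `a = m` then `q = m`, `dim q = 0 ≤ e`; otherwise `a < q`, so `dim q ≤ e`. So `dim (I + (z)) ≤ e` (a chain of primes
   containing `I + (z)` starts at such a `q`); apply the induction hypothesis to `I + (z)`.
3. Lemma B. Let `p` be a homogeneous prime, `y_1, ..., y_c` linear forms such that every prime that contains `p` and the `y_i` is
   `m`. Then `dim p ≤ c`. The radical of `J = p + (y_1, ..., y_c)` is `m`, so `m ^ N ≤ J` for some `N`. Claim: every form `f` of
   degree `t` is modulo `p` a combination of the monomials of degree `< N` with coefficients in `A = k[y_1, ..., y_c]` (the subalgebra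
   generated by the `y_i`, `Algebra.adjoin`). Induction on `t`; for `t < N` it is clear; for `t ≥ N`, `f ∈ m ^ N ≤ J`, so
   `f = u + ∑ y_i g_i` with `u ∈ p` and (taking homogeneous components of degree `t`) forms `g_i` of degree `t - 1`. So `S / p` is a finite
   module over (the image of) `A`, which is a quotient of the polynomial ring in `c` variables, and `dim (S / p) = dim (A / (A ∩ p)) ≤ c` (an
   injective integral extension of domains preserves the Krull dimension: proof in `Q282GP.dim_integral`, file
   `Pool/Agent/Q282/GP/Fin.lean`, copy it).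
4. Let `e` be the dimension of `p + (l)` (it is contained in `m`). By Lemma A there are `z_1, ..., z_e` for `I = p + (l)`; Lemma B with
   `l, z_1, ..., z_e` gives `δ + 1 = dim p ≤ e + 1`. There is a chain of primes containing `p + (l)` of length `e`; the minimal prime `p'` of
   `p + (l)` below its first member is homogeneous and has `dim p' ≥ e ≥ δ`; and `p < p'` (`l ∉ p`), so `dim p' ≤ δ`. -/
def S_Cut : Prop := ∀ (k : Type) [Field k] [Infinite k] (n : ℕ) (p : Ideal (MvPolynomial (Fin n) k)), p.IsPrime →
  Hom p → ∀ l : MvPolynomial (Fin n) k, l.IsHomogeneous 1 → l ∉ p → ∀ δ : ℕ,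
    ringKrullDim (MvPolynomial (Fin n) k ⧸ p) = ((δ + 1 : ℕ) : WithBot ℕ∞) →
    ∃ p' : Ideal (MvPolynomial (Fin n) k), p'.IsPrime ∧ Hom p' ∧ p ≤ p' ∧ l ∈ p' ∧
      ringKrullDim (MvPolynomial (Fin n) k ⧸ p') = (δ : WithBot ℕ∞)

/-- **JOB DT-EXT.** Homogeneous prime ideals and algebraic extensions of the ground field.

Proof. `S_0 = F[x]`, `S = K[x]`. The homomorphism `S_0 → S` (`MvPolynomial.map (algebraMap F K)`) is injective and integral: the constants
are algebraic over `F` and the variables come from `S_0` (`MvPolynomial.induction_on`, `IsIntegral.add`, `.mul`). By lying over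
(`Ideal.exists_ideal_over_prime_of_isIntegral` or `..._of_isDomain`, with `S` as an algebra over `S_0`) there is a prime `q₁` of `S` with
`q₁ ∩ S_0 = p`. Let `q` be its homogeneous core (`exists_core` above). `q ≤ q₁`, so `q ∩ S_0 ≤ p`; and the homogeneous
components of an element of `p` are in `p ≤ q₁`, their images in `S` are homogeneous elements of `q₁`, so in `q`: `p ≤ q ∩ S_0`. Finally
`S_0 / p → S / q` is injective and integral and both are domains, so the Krull dimensions agree (`Q282GP.dim_integral` in
`Pool/Agent/Q282/GP/Fin.lean`, copy its proof). -/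
def S_Ext : Prop := ∀ (F K : Type) [Field F] [Field K] [Algebra F K] [Algebra.IsAlgebraic F K] (n : ℕ)
  (p : Ideal (MvPolynomial (Fin n) F)), p.IsPrime → Hom p →
    ∃ q : Ideal (MvPolynomial (Fin n) K), q.IsPrime ∧ Hom q ∧
      q.comap (MvPolynomial.map (algebraMap F K)) = p ∧
      ringKrullDim (MvPolynomial (Fin n) K ⧸ q) = ringKrullDim (MvPolynomial (Fin n) F ⧸ p)

end Q282DT
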